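import Pool.Agent.Lib.TG42.J10

/-!
# C42, row C3: generic maps `P^n → P^n` of large degree
-/

set_option autoImplicit false

open scoped Classical

namespace Pool.Agent.TG42

open MvPolynomial Module
open Pool.Agent.TGJ (frk frk_mono frk_le_card frk_union_le_add_card algebraicIndependent_adjoin_iff
  algebraicIndependent_iff_frk frk_le_of_algebraic)

universe u

section Wr

variable {n : ℕ} {k : Type u} [Field k]

/-- The rows `(g i₀, ∂ g i₀), (g (succAbove i), ∂)`. -/
noncomputable def nmat (g : Fin (n + 1) → MvPolynomial (Fin n) k) (i₀ : Fin (n + 1)) :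
    Matrix (Fin (n + 1)) (Fin (n + 1)) (MvPolynomial (Fin n) k) :=
  (Matrix.of fun i j : Fin (n + 1) =>
    (Fin.cons (g i) (fun l => pderiv l (g i)) : Fin (n + 1) → MvPolynomial (Fin n) k) j).submatrix
      (Fin.cons i₀ i₀.succAbove : Fin (n + 1) → Fin (n + 1)) id

theorem exists_sign (g : Fin (n + 1) → MvPolynomial (Fin n) k) (i₀ : Fin (n + 1)) :
    ∃ e : ℤˣ, (nmat g i₀).det = ((e : ℤ) : MvPolynomial (Fin n) k) * wr g := by
  have h1 : Function.Injective (Fin.cons i₀ i₀.succAbove : Fin (n + 1) → Fin (n + 1)) := by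
    rw [Fin.cons_injective_iff]
    exact ⟨by simp, Fin.succAbove_right_injective⟩
  let σ : Equiv.Perm (Fin (n + 1)) := Equiv.ofBijective _ (Finite.injective_iff_bijective.1 h1)
  refine ⟨Equiv.Perm.sign σ, ?_⟩
  exact Matrix.det_permute σ _

theorem wr_dvd (g : Fin (n + 1) → MvPolynomial (Fin n) k) (i₀ : Fin (n + 1)) :
    wr g ∣ (nmat g i₀).det := by
  obtain ⟨e, he⟩ := exists_sign g i₀
  rw [he]
  exact Dvd.intro_left _ rfl

/-- The elimination matrix. -/
noncomputable def lmat (G : MvPolynomial (Fin n) k) (f : Fin n → MvPolynomial (Fin n) k) :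
    Matrix (Fin (n + 1)) (Fin (n + 1)) (MvPolynomial (Fin n) k) :=
  Matrix.of fun i j => (Fin.cons (Fin.cons 1 fun _ => 0)
    (fun i' => Fin.cons (-f i') fun j' => if i' = j' then G else 0) :
      Fin (n + 1) → Fin (n + 1) → MvPolynomial (Fin n) k) i j

theorem det_lmat (G : MvPolynomial (Fin n) k) (f : Fin n → MvPolynomial (Fin n) k) :
    (lmat G f).det = G ^ n := by
  rw [Matrix.det_of_isLowerTriangular]
  · rw [Fin.prod_univ_succ]
    simp [lmat]
  · intro i j hij
    have hij' : i < j := hij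
    refine Fin.cases ?_ (fun j' hij => ?_) j hij'
    · intro h
      exact absurd h (Fin.not_lt_zero i)
    · revert hij
      refine Fin.cases ?_ (fun i' hij => ?_) i
      · intro _
        simp [lmat]
      · have h1 : i' < j' := Fin.succ_lt_succ_iff.1 hij
        simp [lmat, h1.ne]

theorem jac_identity (g : Fin (n + 1) → MvPolynomial (Fin n) k) (i₀ : Fin (n + 1)) :
    g i₀ ^ n * (nmat g i₀).det =
      g i₀ * (Matrix.of fun i j : Fin n => g i₀ * pderiv j (g (i₀.succAbove i)) -
        g (i₀.succAbove i) * pderiv j (g i₀)).det := by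
  rw [← det_lmat (g i₀) fun i => g (i₀.succAbove i), ← Matrix.det_mul, Matrix.det_succ_column_zero,
    Finset.sum_eq_single 0]
  · have h1 : (lmat (g i₀) (fun i => g (i₀.succAbove i)) * nmat g i₀) 0 0 = g i₀ := by
      rw [Matrix.mul_apply, Fin.sum_univ_succ]
      simp [lmat, nmat]
    rw [h1, Fin.val_zero, pow_zero, one_mul]
    congr 2
    ext1 i j
    rw [Matrix.submatrix_apply, Fin.zero_succAbove, Matrix.mul_apply, Fin.sum_univ_succ]
    simp [lmat, nmat]
    ring
  · intro i _ hi
    obtain ⟨i', rfl⟩ := Fin.exists_succ_eq.2 hi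
    have h1 : (lmat (g i₀) (fun i => g (i₀.succAbove i)) * nmat g i₀) i'.succ 0 = 0 := by
      rw [Matrix.mul_apply, Fin.sum_univ_succ]
      simp [lmat, nmat]
      ring
    rw [h1, mul_zero, zero_mul]
  · intro h
    exact absurd (Finset.mem_univ _) h

theorem jac_eq (G : MvPolynomial (Fin n) k) (f : Fin n → MvPolynomial (Fin n) k)
    (r : Fin n → k) : jac G (fun i => f i - C (r i) * G) =
      (Matrix.of fun i j : Fin n => G * pderiv j (f i) - f i * pderiv j G).det := by
  rw [jac]
  congr 1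
  ext1 i j
  simp only [jmat, Matrix.of_apply, map_sub, pderiv_C_mul]
  ring

theorem wr_dvd_jac (hn : 0 < n) (g : Fin (n + 1) → MvPolynomial (Fin n) k) (i₀ : Fin (n + 1))
    (h0 : g i₀ ≠ 0) (r : Fin n → k) :
    wr g ∣ jac (g i₀) (fun i => g (i₀.succAbove i) - C (r i) * g i₀) := by
  rw [jac_eq]
  have h1 := jac_identity g i₀
  obtain ⟨n', rfl⟩ := Nat.exists_eq_add_of_le' (Nat.succ_le_of_lt hn)
  have h2 : g i₀ * (g i₀ ^ n' * (nmat g i₀).det) = g i₀ *
      (Matrix.of fun i j : Fin (n' + 1) => g i₀ * pderiv j (g (i₀.succAbove i)) -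
        g (i₀.succAbove i) * pderiv j (g i₀)).det := by
    rw [← h1]
    ring
  have h3 := mul_left_cancel₀ h0 h2
  rw [← h3]
  exact Dvd.dvd.mul_left (wr_dvd g i₀) _

end Wr

section Final

variable {n b : ℕ} {F k : Type u} [Field F] [Field k] [Algebra F k]
  {g : Fin (n + 1) → MvPolynomial (Fin n) k}

theorem map_idealOfVars (η : Fin n → k) :
    (idealOfVars (Fin n) k).map (tra (-η) : MvPolynomial (Fin n) k →ₐ[k] _) = mI η := by
  rw [idealOfVars, Ideal.map_span, mI, ← Set.range_comp]
  congr 1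
  ext x
  constructor
  · rintro ⟨i, rfl⟩
    refine ⟨i, ?_⟩
    simp only [Function.comp_apply, tra_X, Pi.neg_apply, C_neg, sub_eq_add_neg]
  · rintro ⟨i, rfl⟩
    refine ⟨i, ?_⟩
    simp only [Function.comp_apply, tra_X, Pi.neg_apply, C_neg, sub_eq_add_neg]

theorem tra_hloc (η : Fin n → k) (i₀ : Fin (n + 1)) (i : Fin n) :
    tra (-η) (hloc g η i₀ i) = g (i₀.succAbove i) -
      C (eval η (g (i₀.succAbove i)) / eval η (g i₀)) * g i₀ := by
  rw [hloc, map_sub, map_mul, tra_neg_tra, tra_neg_tra, tra_C]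

theorem tra_hloc_eq (η : Fin n → k) {i₀ : Fin (n + 1)} (h0 : eval η (g i₀) ≠ 0) (i : Fin n) :
    tra (-η) (hloc g η i₀ i) = C (eval η (g i₀))⁻¹ * hh g η i₀ (i₀.succAbove i) := by
  rw [tra_hloc, hh, mul_sub, ← mul_assoc, ← mul_assoc, ← C_mul, ← C_mul, inv_mul_cancel₀ h0, C_1,
    one_mul, div_eq_inv_mul]

theorem tra_jac {σ : Type*} [Fintype σ] [DecidableEq σ] (η : σ → k) (G : MvPolynomial σ k)
    (h : σ → MvPolynomial σ k) : tra η (jac G h) = jac (tra η G) fun i => tra η (h i) := by
  rw [jac, AlgHom.map_det, jac]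
  congr 1
  ext1 i j
  simp only [jmat, AlgHom.mapMatrix_apply, Matrix.map_apply, Matrix.of_apply, map_sub, map_mul,
    pderiv_tra]

theorem translate (η : Fin n → k) (I : Ideal (MvPolynomial (Fin n) k)) {ι : Type*}
    (f : ι → MvPolynomial (Fin n) k) {e : ℕ}
    (h : idealOfVars (Fin n) k ^ e ≤ Ideal.span (Set.range f) ⊔ idealOfVars (Fin n) k ^ (e + 1))
    (hI : ∀ i, tra (-η) (f i) ∈ I) : mI η ^ e ≤ I ⊔ mI η ^ (e + 1) := by
  have h1 := Ideal.map_mono (f := (tra (-η) : MvPolynomial (Fin n) k →ₐ[k] _)) h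
  rw [Ideal.map_sup, Ideal.map_pow, Ideal.map_pow, map_idealOfVars, Ideal.map_span] at h1
  refine h1.trans (sup_le_sup (Ideal.span_le.2 ?_) le_rfl)
  rintro _ ⟨_, ⟨i, rfl⟩, rfl⟩
  exact hI i

/-- Local degrees of `k(x) / k(g_j / g_i)`. -/
theorem jets_one [Infinite F] (hp : ∀ s, 1 ≤ s → s ≤ lev n b n → (s : k) ≠ 0) (hg : GenT b F g)
    (η : Fin n → k) (i₀ : Fin (n + 1)) (h0 : eval η (g i₀) ≠ 0) (h1 : 0 < n) :
    mI η ^ eT n b ≤ Ideal.span (Set.range (hh g η i₀)) ⊔ mI η ^ (eT n b + 1) := by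
  have hD : OrdLe η (map (algebraMap F k) (1 : MvPolynomial (Fin n) F)) b := by
    refine ⟨0, Nat.zero_le b, ?_⟩
    rw [map_one, map_one, homogeneousComponent_zero, coeff_zero_one, C_1]
    exact one_ne_zero
  have hmain := jets_core h1 hp hg 1 η hD i₀ h0 ⟨0, h1⟩
  refine translate η _ _ hmain fun i => ?_
  have h2 : ∀ j, tra (-η) (hloc g η i₀ j) ∈ Ideal.span (Set.range (hh g η i₀)) := fun j => by
    rw [tra_hloc_eq η h0]
    exact Ideal.mul_mem_left _ _ (Ideal.subset_span ⟨_, rfl⟩)
  unfold gens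
  split_ifs with hi
  · rw [map_mul, map_mul]
    exact Ideal.mul_mem_right _ _ (Ideal.mul_mem_left _ _ (h2 _))
  · exact h2 i

/-- Local degrees of `Frac (k[x] / q) / k(g_j / g_i : j ≠ l)` for the primes `q ∋ D * wr g`. -/
theorem jets_two [Infinite F] (hp : ∀ s, 1 ≤ s → s ≤ lev n b n → (s : k) ≠ 0)
    (hg : GenT b F g) (D : MvPolynomial (Fin n) F) (η : Fin n → k)
    (hD : OrdLe η (map (algebraMap F k) D) b) (i₀ l : Fin (n + 1)) (hl : i₀ ≠ l)
    (h0 : eval η (g i₀) ≠ 0) :
    mI η ^ eT n b ≤ Ideal.span (hh g η i₀ '' {j | j ≠ l}) ⊔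
      Ideal.span {map (algebraMap F k) D * wr g} ⊔ mI η ^ (eT n b + 1) := by
  obtain ⟨l', rfl⟩ := Fin.exists_succAbove_eq (Ne.symm hl)
  have h1 : 0 < n := Fin.pos l'
  have hmain := jets_core h1 hp hg D η hD i₀ h0 l'
  refine translate η _ _ hmain fun i => ?_
  unfold gens
  split_ifs with hi
  · refine Ideal.mem_sup_right ?_
    rw [map_mul, map_mul, tra_neg_tra, tra_jac, tra_neg_tra]
    simp only [tra_hloc]
    have h2 : g i₀ ≠ 0 := fun h3 => h0 (by rw [h3, map_zero])
    obtain ⟨w, hw⟩ := wr_dvd_jac h1 g i₀ h2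
      fun i => eval η (g (i₀.succAbove i)) / eval η (g i₀)
    rw [hw, Ideal.mem_span_singleton]
    exact ⟨(g (i₀.succAbove l') - C (eval η (g (i₀.succAbove l')) / eval η (g i₀)) * g i₀) * w,
      by ring⟩
  · refine Ideal.mem_sup_left ?_
    rw [tra_hloc_eq η h0]
    exact Ideal.mul_mem_left _ _ (Ideal.subset_span ⟨_, fun h =>
      hi (Fin.succAbove_right_injective h), rfl⟩)

/-- The centre of the projection is not on the branch divisor. -/
theorem centre (hg : GenT b F g) (D : MvPolynomial (Fin n) F) (hD : D ≠ 0) (η : Fin n → k)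
    (l : Fin (n + 1)) (h0 : ∀ j, j ≠ l → eval η (g j) = 0) :
    eval η (map (algebraMap F k) D) ≠ 0 ∧ eval η (wr g) ≠ 0 := by
  let ι : Type := Fin n ⊕ ((Fin n × {α : Exps (Fin n) (dgT n b) // α.1 ≠ 0}) ⊕
    Exps (Fin n) (dgT n b))
  let c : ι → k := Sum.elim η (Sum.elim
    (fun x => coeff x.2.1.1 (tra η (g (l.succAbove x.1)))) fun α => coeff α.1 (tra η (g l)))
  let s : Finset k := Finset.univ.image c
  have hsub : ∀ x : ι, c x ∈ IntermediateField.adjoin F (s : Set k) := fun x =>
    IntermediateField.subset_adjoin F _ (Finset.mem_coe.2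
      (Finset.mem_image_of_mem c (Finset.mem_univ x)))
  have h1 := hg.rank_le η s (fun i => hsub (Sum.inl i)) (by
    intro j α
    by_cases h2 : α.degree ≤ dgT n b
    · by_cases hj : j = l
      · rw [hj]
        exact hsub (Sum.inr (Sum.inr ⟨α, h2⟩))
      · obtain ⟨i, rfl⟩ := Fin.exists_succAbove_eq hj
        by_cases h3 : α = 0
        · rw [h3, coeff_zero_tra, h0 _ hj]
          exact zero_mem _
        · exact hsub (Sum.inr (Sum.inl (i, ⟨⟨α, h2⟩, h3⟩)))
    · rw [hg.coeff_zero η j (not_le.1 h2)]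
      exact zero_mem _)
  have h2 : Fintype.card ι ≤ (n + 1) * nc n b := by
    have h3 : Fintype.card ι = n + (n * Fintype.card {α : Exps (Fin n) (dgT n b) // α.1 ≠ 0} +
        nc n b) := by
      simp only [ι, Fintype.card_sum, Fintype.card_prod, Fintype.card_fin, nc]
    have h4 := card_ne_zero_exps n b
    have h5 : n * (Fintype.card {α : Exps (Fin n) (dgT n b) // α.1 ≠ 0} + 1) ≤ n * nc n b :=
      Nat.mul_le_mul_left _ h4
    rw [mul_add, mul_one] at h5
    have h6 : (n + 1) * nc n b = n * nc n b + nc n b := by ring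
    omega
  have hind : AlgebraicIndependent F c := by
    rw [algebraicIndependent_iff_frk]
    have h3 := frk_le_card F s
    have h4 : s.card ≤ Fintype.card ι := Finset.card_image_le
    change frk F s = _
    omega
  constructor
  · have h3 : AlgebraicIndependent F η := hind.comp Sum.inl Sum.inl_injective
    intro h4
    have h5 : aeval η D = 0 := by
      rw [aeval_def, ← eval_map]
      exact h4
    exact hD (h3 (h5.trans (map_zero _).symm))
  · have hgl : eval η (g l) ≠ 0 := by
      obtain ⟨i, hi⟩ := exists_ne hg η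
      by_cases h : i = l
      · rwa [h] at hi
      · exact absurd (h0 i h) hi
    -- the linear coefficients
    let A : Matrix (Fin n) (Fin n) k := Matrix.of fun i j =>
      eval η (pderiv j (g (l.succAbove i)))
    have hA : A.det ≠ 0 := by
      have h3 : AlgebraicIndependent F fun x : Fin n × Fin n => A x.1 x.2 := by
        have hdeg : ∀ j : Fin n, (Finsupp.single j 1 : Fin n →₀ ℕ).degree ≤ dgT n b := by
          intro j
          rw [Finsupp.degree_single]
          have h4 := lev_mono (b := b) (Fin.pos j) (show 0 < n + 1 by omega)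
          rw [lev_succ, lev] at h4
          omega
        let f : Fin n × Fin n → ι := fun x => Sum.inr (Sum.inl (x.1,
          ⟨⟨Finsupp.single x.2 1, hdeg x.2⟩, by simp⟩))
        have hf : Function.Injective f := by
          rintro ⟨i, j⟩ ⟨i', j'⟩ h
          have h6 := Sum.inl_injective (Sum.inr_injective h)
          have h7 : i = i' := congrArg Prod.fst h6
          have h8 : (Finsupp.single j 1 : Fin n →₀ ℕ) = Finsupp.single j' 1 :=
            congrArg (fun z => z.2.1.1) h6
          have h9 : j = j' := Finsupp.single_left_injective one_ne_zero h8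
          rw [h7, h9]
        have h4 := hind.comp f hf
        have h5 : (fun x : Fin n × Fin n => A x.1 x.2) = c ∘ f := by
          funext x
          change eval η (pderiv x.2 (g (l.succAbove x.1))) =
            coeff (Finsupp.single x.2 1) (tra η (g (l.succAbove x.1)))
          rw [← coeff_zero_tra, ← pderiv_tra, coeff_pderiv]
          simp
        rw [h5]
        exact h4
      intro h4
      have h5 : aeval (fun x : Fin n × Fin n => A x.1 x.2)
          (Matrix.mvPolynomialX (Fin n) (Fin n) F).det = A.det := by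
        rw [AlgHom.map_det, Matrix.mvPolynomialX_mapMatrix_aeval]
      rw [h4] at h5
      exact Matrix.det_mvPolynomialX_ne_zero (Fin n) F (h3 (h5.trans (map_zero _).symm))
    have h3 := congrArg (eval η) (jac_identity g l)
    obtain ⟨e, he⟩ := exists_sign g l
    rw [he, map_mul, map_mul, map_mul, map_pow, RingHom.map_det] at h3
    intro h4
    rw [h4, mul_zero, mul_zero] at h3
    have h5 : ((eval η).mapMatrix (Matrix.of fun i j : Fin n =>
        g l * pderiv j (g (l.succAbove i)) - g (l.succAbove i) * pderiv j (g l))) =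
        (eval η (g l)) • A := by
      ext1 i j
      simp only [RingHom.mapMatrix_apply, Matrix.map_apply, Matrix.of_apply, map_sub, map_mul,
        Matrix.smul_apply, smul_eq_mul, A]
      rw [h0 _ (Fin.succAbove_ne l i), zero_mul, sub_zero]
    rw [h5, Matrix.det_smul] at h3
    exact mul_ne_zero hgl (mul_ne_zero (pow_ne_zero _ hgl) hA) h3.symm

end Final

end Pool.Agent.TG42
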