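import Pool.Agent.Lib.TG42.J3

/-!
# C42, row C3: the statements (generic maps `P^n → P^n` of large degree)
-/

set_option autoImplicit false

namespace Pool.Agent.TG42

open MvPolynomial

universe u

/-- Bound for the special ideal. -/
def tb (n b s : ℕ) : ℕ := n * (s * (b + s + 2 * n * s))

/-- Bound for the generic ideal at level `s`. -/
def bd (n b s : ℕ) : ℕ := tb n b s ^ n

/-- The levels: `1, ..`. -/
def lev (n b : ℕ) : ℕ → ℕ
  | 0 => 1
  | j + 1 => bd n b (lev n b j) + 2

/-- The degree of the generic forms. -/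
def dgT (n b : ℕ) : ℕ := lev n b (n + 1) - 1

/-- The exponent `T`. -/
def eT (n b : ℕ) : ℕ := bd n b (lev n b n)

section Stmt

variable {n : ℕ} {k : Type u} [Field k]

/-- The maximal ideal at `η`. -/
noncomputable def mI (η : Fin n → k) : Ideal (MvPolynomial (Fin n) k) :=
  Ideal.span (Set.range fun i => X i - C (η i))

/-- `g i₀ (η) g j - g j (η) g i₀`: vanishes at `η`. -/
noncomputable def hh (g : Fin (n + 1) → MvPolynomial (Fin n) k) (η : Fin n → k)
    (i₀ j : Fin (n + 1)) : MvPolynomial (Fin n) k :=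
  C (eval η (g i₀)) * g j - C (eval η (g j)) * g i₀

/-- The Wronskian of `g 0, .., g n`. -/
noncomputable def wr (g : Fin (n + 1) → MvPolynomial (Fin n) k) : MvPolynomial (Fin n) k :=
  (Matrix.of fun i j : Fin (n + 1) =>
    (Fin.cons (g i) (fun l => pderiv l (g i)) : Fin (n + 1) → MvPolynomial (Fin n) k) j).det

/-- `g 0, .., g n` are generic polynomials of degree at most `dgT n b` over the field `F`. -/
structure GenT (b : ℕ) (F : Type u) [Field F] [Algebra F k]
    (g : Fin (n + 1) → MvPolynomial (Fin n) k) : Prop where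
  deg : ∀ i, (g i).totalDegree ≤ dgT n b
  ind : AlgebraicIndependent F
    fun s : Fin (n + 1) × Exps (Fin n) (dgT n b) => coeff s.2.1 (g s.1)

/-- The order of `D` at `η` is at most `b`. -/
def OrdLe (η : Fin n → k) (D : MvPolynomial (Fin n) k) (b : ℕ) : Prop :=
  ∃ d ≤ b, homogeneousComponent d (aeval (fun i => X i + C (η i)) D : MvPolynomial (Fin n) k) ≠ 0

end Stmt

end Pool.Agent.TG42
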