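import Mathlib

/-!
# C42, row C3 (jets): linear algebra

Spanning is an open condition; the chain lemma.
-/

set_option autoImplicit false

namespace Pool.Agent.TG42

open MvPolynomial Module

section Semi

/-- A spanning family contains a basis. -/
theorem exists_rows {E : Type*} [Field E] {ι κ : Type*} [Fintype κ] [DecidableEq κ]
    (w : ι → κ → E) (h : Submodule.span E (Set.range w) = ⊤) :
    ∃ f : κ → ι, (Matrix.of fun i j => w (f i) j).det ≠ 0 := by
  obtain ⟨b, hb, hs, hi⟩ := exists_linearIndependent E (Set.range w)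
  rw [h] at hs
  let B : Basis b E (κ → E) := Basis.mk hi (by rw [Subtype.range_coe, hs])
  let e : κ ≃ b := (Pi.basisFun E κ).indexEquiv B
  choose g hg using fun i : κ => hb (e i).2
  refine ⟨g, ?_⟩
  have h1 : LinearIndependent E (Matrix.of fun i j => w (g i) j).row := by
    have h2 : (Matrix.of fun i j => w (g i) j).row = fun i => ((e i : b) : κ → E) := by
      funext i
      exact hg i
    rw [h2]
    exact hi.comp e e.injective
  rw [Matrix.linearIndependent_rows_iff_isUnit, Matrix.isUnit_iff_isUnit_det] at h1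
  exact h1.ne_zero

theorem span_of_det {L : Type*} [Field L] {ι κ : Type*} [Fintype κ] [DecidableEq κ]
    (w : ι → κ → L) (f : κ → ι) (h : (Matrix.of fun i j => w (f i) j).det ≠ 0) :
    Submodule.span L (Set.range w) = ⊤ := by
  have h1 : LinearIndependent L (Matrix.of fun i j => w (f i) j).row := by
    rw [Matrix.linearIndependent_rows_iff_isUnit, Matrix.isUnit_iff_isUnit_det]
    exact IsUnit.mk0 _ h
  have h2 := h1.span_eq_top_of_card_eq_finrank' (by rw [Module.finrank_fintype_fun_eq_card])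
  rw [eq_top_iff, ← h2]
  refine Submodule.span_mono ?_
  rintro _ ⟨i, rfl⟩
  exact ⟨f i, rfl⟩

/-- Semicontinuity of spanning. -/
theorem exists_det {Λ E : Type*} [CommRing Λ] [Field E] (φ : Λ →+* E) {ι κ : Type*} [Fintype κ]
    [DecidableEq κ] (w : ι → κ → Λ)
    (h : Submodule.span E (Set.range fun i => fun j => φ (w i j)) = ⊤) :
    ∃ f : κ → ι, φ (Matrix.of fun i j => w (f i) j).det ≠ 0 := by
  obtain ⟨f, hf⟩ := exists_rows _ h
  refine ⟨f, ?_⟩
  rw [RingHom.map_det]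
  exact hf

theorem span_of_map_det {Λ L : Type*} [CommRing Λ] [Field L] (ψ : Λ →+* L) {ι κ : Type*}
    [Fintype κ] [DecidableEq κ] (w : ι → κ → Λ) (f : κ → ι)
    (h : ψ (Matrix.of fun i j => w (f i) j).det ≠ 0) :
    Submodule.span L (Set.range fun i => fun j => ψ (w i j)) = ⊤ := by
  refine span_of_det _ f ?_
  rw [RingHom.map_det] at h
  exact h

end Semi

section Chain

variable {L A : Type*} [Field L] [CommRing A] [Algebra L A]

/-- The chain lemma: if `A / (I + 𝔪 ^ (B + 1))` has dimension at most `B`, then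
`𝔪 ^ i ⊆ I + 𝔪 ^ (i + 1)` for some `i ≤ B`. -/
theorem exists_pow_le (I 𝔪 : Ideal A) {B : ℕ} {ι : Type*} [Fintype ι] (e : ι → A)
    (hc : Fintype.card ι ≤ B)
    (hs : ∀ f : A, ∃ b ∈ Submodule.span L (Set.range e), f - b ∈ I ⊔ 𝔪 ^ (B + 1)) :
    ∃ i ≤ B, 𝔪 ^ i ≤ I ⊔ 𝔪 ^ (i + 1) := by
  classical
  by_contra hcon
  push Not at hcon
  have h1 : ∀ i : Fin (B + 1), ∃ f : A, f ∈ 𝔪 ^ (i : ℕ) ∧ f ∉ I ⊔ 𝔪 ^ ((i : ℕ) + 1) := fun i =>
    SetLike.not_le_iff_exists.1 (hcon i (Nat.lt_succ_iff.1 i.2))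
  choose f hf hf' using h1
  set J : Ideal A := I ⊔ 𝔪 ^ (B + 1) with hJ
  let q : A →ₗ[L] A ⧸ J := (Ideal.Quotient.mkₐ L J).toLinearMap
  have hq : ∀ a, q a = 0 ↔ a ∈ J := fun a => Ideal.Quotient.eq_zero_iff_mem
  have htop : Submodule.span L (Set.range fun i => q (e i)) = ⊤ := by
    rw [eq_top_iff]
    rintro x -
    obtain ⟨a, rfl⟩ : ∃ a, q a = x := Ideal.Quotient.mk_surjective x
    obtain ⟨b, hb, hab⟩ := hs a
    have h2 : q a = q b := by
      rw [← sub_eq_zero, ← map_sub, hq]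
      exact hab
    rw [h2]
    have h3 : Submodule.span L (Set.range fun i => q (e i)) =
        (Submodule.span L (Set.range e)).map q := by
      rw [Submodule.map_span, ← Set.range_comp]
      rfl
    rw [h3]
    exact Submodule.mem_map_of_mem hb
  have hfd : FiniteDimensional L (A ⧸ J) := by
    refine ⟨⟨Finset.univ.image fun i => q (e i), ?_⟩⟩
    rw [Finset.coe_image, Finset.coe_univ, Set.image_univ]
    exact htop
  have hle : finrank L (A ⧸ J) ≤ B := by
    have h2 := finrank_range_le_card (R := L) (fun i => q (e i))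
    rw [Set.finrank, htop, finrank_top] at h2
    exact h2.trans hc
  have hli : LinearIndependent L fun i : Fin (B + 1) => q (f i) := by
    rw [Fintype.linearIndependent_iff]
    intro c hsum
    have hsum' : ∑ i, c i • f i ∈ J := by
      rw [← hq, map_sum]
      rw [← hsum]
      exact Finset.sum_congr rfl fun i _ => map_smul _ _ _
    have key : ∀ j : ℕ, ∀ hj : j < B + 1, c ⟨j, hj⟩ = 0 := by
      intro j
      induction j using Nat.strong_induction_on with
      | _ j ih =>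
        intro hj
        by_contra h0
        apply hf' ⟨j, hj⟩
        have h3 : ∑ i, c i • f i = c ⟨j, hj⟩ • f ⟨j, hj⟩ +
            ∑ i ∈ Finset.univ.erase (⟨j, hj⟩ : Fin (B + 1)), c i • f i :=
          (Finset.add_sum_erase _ _ (Finset.mem_univ _)).symm
        have h4 : ∑ i ∈ Finset.univ.erase (⟨j, hj⟩ : Fin (B + 1)), c i • f i ∈
            I ⊔ 𝔪 ^ (j + 1) := by
          refine Ideal.sum_mem _ fun i hi => ?_
          rcases lt_trichotomy (i : ℕ) j with h5 | h5 | h5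
          · rw [ih i h5 i.2, zero_smul]
            exact Ideal.zero_mem _
          · exact absurd (Fin.ext h5) (Finset.ne_of_mem_erase hi)
          · rw [Algebra.smul_def]
            refine Ideal.mul_mem_left _ _ (Ideal.mem_sup_right ?_)
            exact Ideal.pow_le_pow_right h5 (hf i)
        have h5 : J ≤ I ⊔ 𝔪 ^ (j + 1) := sup_le_sup le_rfl (Ideal.pow_le_pow_right (by omega))
        have h6 : c ⟨j, hj⟩ • f ⟨j, hj⟩ ∈ I ⊔ 𝔪 ^ (j + 1) := by
          have := Ideal.sub_mem _ (h5 hsum') h4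
          rwa [h3, add_sub_cancel_right] at this
        have h7 : f ⟨j, hj⟩ = algebraMap L A (c ⟨j, hj⟩)⁻¹ * (c ⟨j, hj⟩ • f ⟨j, hj⟩) := by
          rw [← Algebra.smul_def, smul_smul, inv_mul_cancel₀ h0, one_smul]
        rw [h7]
        exact Ideal.mul_mem_left _ _ h6
    intro i
    exact key i i.2
  have h8 := hli.fintype_card_le_finrank
  rw [Fintype.card_fin] at h8
  omega

omit [Algebra L A] in
theorem pow_le_of_le {I 𝔪 : Ideal A} {i j : ℕ} (hij : i ≤ j) (h : 𝔪 ^ i ≤ I ⊔ 𝔪 ^ (i + 1)) :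
    𝔪 ^ j ≤ I ⊔ 𝔪 ^ (j + 1) := by
  obtain ⟨d, rfl⟩ := Nat.exists_eq_add_of_le hij
  calc 𝔪 ^ (i + d) = 𝔪 ^ i * 𝔪 ^ d := pow_add _ _ _
    _ ≤ (I ⊔ 𝔪 ^ (i + 1)) * 𝔪 ^ d := Ideal.mul_mono_left h
    _ = I * 𝔪 ^ d ⊔ 𝔪 ^ (i + 1) * 𝔪 ^ d := Ideal.sup_mul _ _ _
    _ ≤ I ⊔ 𝔪 ^ (i + d + 1) := by
      refine sup_le_sup Ideal.mul_le_left ?_
      rw [← pow_add]
      exact Ideal.pow_le_pow_right (by omega)

/-- `𝔪 ^ i ⊆ I + 𝔪 ^ (i + 1)` gives `𝔪 ^ i ⊆ I + 𝔪 ^ j` for all `j`. -/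
theorem pow_le_sup_pow {I 𝔪 : Ideal A} {i : ℕ} (h : 𝔪 ^ i ≤ I ⊔ 𝔪 ^ (i + 1)) (j : ℕ) :
    𝔪 ^ i ≤ I ⊔ 𝔪 ^ (i + j) := by
  induction j with
  | zero => rw [add_zero]; exact le_sup_right
  | succ j ih =>
    refine ih.trans (sup_le le_sup_left ?_)
    exact pow_le_of_le (Nat.le_add_right i j) h

end Chain

end Pool.Agent.TG42
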