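import Pool.Agent.Lib.TG42.J9

/-!
# C42, row C3 (jets): the main inclusion at the origin
-/

set_option autoImplicit false

open scoped Classical

namespace Pool.Agent.TG42

open MvPolynomial Module
open Pool.Agent.TGJ (frk frk_mono frk_le_card frk_union_le_add_card algebraicIndependent_adjoin_iff
  algebraicIndependent_iff_frk frk_le_of_algebraic)

universe u

section Main

variable {n b : ℕ} {F k : Type u} [Field F] [Field k] [Algebra F k]
  {g : Fin (n + 1) → MvPolynomial (Fin n) k}

/-- `h_j = g_j (η + z) - (g_j (η) / g_(i₀) (η)) g_(i₀) (η + z)`. -/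
noncomputable def hloc (g : Fin (n + 1) → MvPolynomial (Fin n) k) (η : Fin n → k)
    (i₀ : Fin (n + 1)) (j : Fin n) : MvPolynomial (Fin n) k :=
  tra η (g (i₀.succAbove j)) -
    C (eval η (g (i₀.succAbove j)) / eval η (g i₀)) * tra η (g i₀)

theorem coeff_zero_hloc (η : Fin n → k) {i₀ : Fin (n + 1)} (h0 : eval η (g i₀) ≠ 0)
    (j : Fin n) : coeff 0 (hloc g η i₀ j) = 0 := by
  rw [hloc, coeff_sub, coeff_C_mul, coeff_zero_tra, coeff_zero_tra, div_mul_cancel₀ _ h0, sub_self]

theorem homogeneousComponent_map' {σ R S : Type*} [CommRing R] [CommRing S] (φ : R →+* S) (d : ℕ)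
    (f : MvPolynomial σ R) : homogeneousComponent d (map φ f) = map φ (homogeneousComponent d f) := by
  ext α
  rw [coeff_homogeneousComponent, coeff_map, coeff_map, coeff_homogeneousComponent]
  split_ifs
  · rfl
  · rw [map_zero]

theorem jets_core [Infinite F] (hn : 0 < n) (hp : ∀ s, 1 ≤ s → s ≤ lev n b n → (s : k) ≠ 0)
    (hg : GenT b F g) (D : MvPolynomial (Fin n) F) (η : Fin n → k)
    (hD : OrdLe η (map (algebraMap F k) D) b) (i₀ : Fin (n + 1)) (h0 : eval η (g i₀) ≠ 0)
    (l : Fin n) :
    idealOfVars (Fin n) k ^ eT n b ≤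
      Ideal.span (Set.range (gens l (tra η (map (algebraMap F k) D)) (tra η (g i₀))
        (hloc g η i₀))) ⊔ idealOfVars (Fin n) k ^ (eT n b + 1) := by
  have : Nonempty (Fin n) := ⟨l⟩
  let S₀ : Finset k := (Finset.univ.image η ∪
    Finset.univ.image fun α : Exps (Fin n) (dgT n b) => coeff α.1 (tra η (g i₀))) ∪
      Finset.univ.image fun j : Fin n => eval η (g (i₀.succAbove j)) / eval η (g i₀)
  let c : ∀ j, Grp n b j → k := fun j x => coeff x.2.1 (hloc g η i₀ x.1)
  have hS₀ : S₀.card ≤ 2 * n + nc n b := by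
    have h1 : (Finset.univ.image fun α : Exps (Fin n) (dgT n b) =>
        coeff α.1 (tra η (g i₀))).card ≤ nc n b := Finset.card_image_le
    have h2 : (Finset.univ.image fun j : Fin n =>
        eval η (g (i₀.succAbove j)) / eval η (g i₀)).card ≤ n := card_image_eta_le _
    have h3 := card_image_eta_le η
    have h4 := Finset.card_union_le (Finset.univ.image η ∪
      Finset.univ.image fun α : Exps (Fin n) (dgT n b) => coeff α.1 (tra η (g i₀)))
      (Finset.univ.image fun j : Fin n => eval η (g (i₀.succAbove j)) / eval η (g i₀))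
    have h5 := Finset.card_union_le (Finset.univ.image η)
      (Finset.univ.image fun α : Exps (Fin n) (dgT n b) => coeff α.1 (tra η (g i₀)))
    exact h4.trans (by omega)
  have hmem : ∀ m (x : k), x ∈ upTo S₀ c m →
      x ∈ IntermediateField.adjoin F (upTo S₀ c m : Set k) := fun m x hx =>
    IntermediateField.subset_adjoin F _ (Finset.mem_coe.2 hx)
  have hη : ∀ m i, η i ∈ IntermediateField.adjoin F (upTo S₀ c m : Set k) := fun m i =>
    hmem m _ (Finset.mem_union_left _ (Finset.mem_union_left _ (Finset.mem_union_left _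
      (Finset.mem_image_of_mem _ (Finset.mem_univ i)))))
  have hr : ∀ m (j : Fin n), eval η (g (i₀.succAbove j)) / eval η (g i₀) ∈
      IntermediateField.adjoin F (upTo S₀ c m : Set k) := fun m j =>
    hmem m _ (Finset.mem_union_left _ (Finset.mem_union_right _
      (Finset.mem_image_of_mem _ (Finset.mem_univ j))))
  have hG : ∀ m α, coeff α (tra η (g i₀)) ∈
      IntermediateField.adjoin F (upTo S₀ c m : Set k) := by
    intro m α
    by_cases h1 : α.degree ≤ dgT n b
    · have h2 : coeff α (tra η (g i₀)) ∈ Finset.univ.image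
          fun α : Exps (Fin n) (dgT n b) => coeff α.1 (tra η (g i₀)) :=
        Finset.mem_image.2 ⟨⟨α, h1⟩, Finset.mem_univ _, rfl⟩
      exact hmem m _ (Finset.mem_union_left _ (Finset.mem_union_left _
        (Finset.mem_union_right _ h2)))
    · rw [hg.coeff_zero η i₀ (not_le.1 h1)]
      exact zero_mem _
  have hlow : ∀ m (i : Fin n) (α : Fin n →₀ ℕ), α.degree < lev n b m →
      coeff α (hloc g η i₀ i) ∈ IntermediateField.adjoin F (upTo S₀ c m : Set k) := by
    intro m i α hα
    by_cases h1 : α = 0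
    · rw [h1, coeff_zero_hloc η h0]
      exact zero_mem _
    have h2 : 1 ≤ α.degree := by
      rw [Nat.one_le_iff_ne_zero, Ne, Finsupp.degree_eq_zero_iff]
      exact h1
    obtain ⟨j, hj, h3⟩ := exists_level h2 hα
    have h4 : coeff α (hloc g η i₀ i) ∈ Finset.univ.image (c j) :=
      Finset.mem_image.2 ⟨(i, ⟨α, h3⟩), Finset.mem_univ _, rfl⟩
    exact hmem m _ (Finset.mem_union_right _
      (Finset.mem_biUnion.2 ⟨j, Finset.mem_range.2 hj, h4⟩))
  have hfull : ∀ j α, coeff α (tra η (g j)) ∈
      IntermediateField.adjoin F (upTo S₀ c (n + 1) : Set k) := by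
    intro j α
    by_cases hj : j = i₀
    · rw [hj]
      exact hG _ α
    obtain ⟨i, rfl⟩ := Fin.exists_succAbove_eq hj
    by_cases h1 : α.degree < lev n b (n + 1)
    · have h2 : coeff α (tra η (g (i₀.succAbove i))) = coeff α (hloc g η i₀ i) +
          eval η (g (i₀.succAbove i)) / eval η (g i₀) * coeff α (tra η (g i₀)) := by
        rw [hloc, coeff_sub, coeff_C_mul, sub_add_cancel]
      rw [h2]
      exact add_mem (hlow _ i α h1) (mul_mem (hr _ i) (hG _ α))
    · rw [hg.coeff_zero η _ (by rw [lev_succ] at h1; omega)]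
      exact zero_mem _
  have hrank := hg.rank_le η _ (hη _) hfull
  have hsum := sum_card_grp (b := b) hn
  have hle := frk_le_card F S₀
  obtain ⟨j, hj, hind⟩ := exists_group (F := F) S₀ c (n + 1) (by
    have h1 : (n + 1) * nc n b = n * nc n b + nc n b := by ring
    omega)
  set E := IntermediateField.adjoin F (upTo S₀ c j : Set k) with hE
  have hEinf : Infinite E := Infinite.of_injective (algebraMap F E) (algebraMap F E).injective
  obtain ⟨GE, hGE⟩ := exists_map (K := E) (hG j)
  let DE : MvPolynomial (Fin n) E :=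
    tra (fun i => (⟨η i, hη j i⟩ : E)) (map (algebraMap F E) D)
  have hDE : map (algebraMap E k) DE = tra η (map (algebraMap F k) D) := by
    rw [map_tra, MvPolynomial.map_map]
    rfl
  have hGE0 : coeff 0 GE ≠ 0 := by
    intro h1
    apply h0
    rw [← coeff_zero_tra, ← hGE, coeff_map, h1, map_zero]
  have hsE : ((lev n b j : ℕ) : E) ≠ 0 := by
    intro h1
    have h2 := hp (lev n b j) (one_le_lev n b j) ((lev_mono hn).monotone (by omega))
    apply h2
    have h3 := congrArg (algebraMap E k) h1
    rwa [map_natCast, map_zero] at h3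
  have hcd : Fintype.card (Fin n) = n := Fintype.card_fin n
  have hD' : ∃ d ≤ b, homogeneousComponent d DE ≠ 0 := by
    obtain ⟨d, hd, h1⟩ := hD
    refine ⟨d, hd, fun h2 => h1 ?_⟩
    change homogeneousComponent d (tra η (map (algebraMap F k) D)) = 0
    rw [← hDE, homogeneousComponent_map', h2, map_zero]
  have hmain := jets_group (E := E) (k := k) l (s := lev n b j) (s' := lev n b (j + 1)) (b := b)
    (one_le_lev n b j) hsE GE hGE0 DE hD' (hloc g η i₀)
    (fun i α hα => ⟨⟨_, hlow j i α hα⟩, rfl⟩) hind (by rw [hcd]; exact le_rfl)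
  rw [hDE, hGE, hcd] at hmain
  exact pow_le_of_le (bd_mono ((lev_mono hn).monotone (by omega))) hmain

end Main

end Pool.Agent.TG42
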