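import Pool.Agent.Lib.TG42.J1

/-!
# C42, row C3 (jets): ideals modulo powers of the variables as row spaces
-/

set_option autoImplicit false

namespace Pool.Agent.TG42

open MvPolynomial Module

section Rows

variable {σ : Type*}

/-- The exponents of degree at most `N`. -/
abbrev Exps (σ : Type*) (N : ℕ) : Type _ := {α : σ →₀ ℕ // α.degree ≤ N}

instance (N : ℕ) [Finite σ] : Finite (Exps σ N) := (Finsupp.finite_of_degree_le N).to_subtype

/-- The coefficients of degree at most `N`. -/
def vec {R : Type*} [CommRing R] (N : ℕ) : MvPolynomial σ R →ₗ[R] (Exps σ N → R) where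
  toFun f α := coeff α.1 f
  map_add' f g := by funext α; simp
  map_smul' c f := by funext α; simp

theorem vec_apply {R : Type*} [CommRing R] (N : ℕ) (f : MvPolynomial σ R) (α : Exps σ N) :
    vec N f α = coeff α.1 f := rfl

theorem vec_eq_zero_iff {R : Type*} [CommRing R] {N : ℕ} {f : MvPolynomial σ R} :
    vec N f = 0 ↔ f ∈ idealOfVars σ R ^ (N + 1) := by
  rw [mem_pow_idealOfVars_iff']
  constructor
  · intro h x hx
    exact congrFun h ⟨x, Nat.lt_succ_iff.1 hx⟩
  · intro h
    funext α
    exact h α.1 (Nat.lt_succ_iff.2 α.2)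

theorem vec_surjective {R : Type*} [CommRing R] [Finite σ] (N : ℕ) :
    Function.Surjective (vec (σ := σ) (R := R) N) := by
  classical
  intro x
  obtain ⟨_⟩ := nonempty_fintype (Exps σ N)
  refine ⟨∑ α, monomial α.1 (x α), ?_⟩
  funext β
  rw [vec_apply, coeff_sum]
  simp only [coeff_monomial]
  rw [Finset.sum_eq_single β]
  · rw [if_pos rfl]
  · intro α _ hα
    rw [if_neg fun h => hα (Subtype.ext h)]
  · intro h
    exact absurd (Finset.mem_univ _) h

/-- The monomials with exponents `< T` (a box). -/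
noncomputable def boxMon (R : Type*) [CommRing R] (T : ℕ) [Finite σ] (a : σ → Fin T) :
    MvPolynomial σ R :=
  monomial (Finsupp.equivFunOnFinite.symm fun i => (a i : ℕ)) 1

/-- The rows. -/
noncomputable def rows {R : Type*} [CommRing R] (N T : ℕ) [Finite σ] {ι : Type*}
    (g : ι → MvPolynomial σ R) :
    (((σ →₀ ℕ) × ι) ⊕ (σ → Fin T)) → Exps σ N → R
  | Sum.inl b => vec N (monomial b.1 1 * g b.2)
  | Sum.inr a => vec N (boxMon R T a)

theorem rows_map {R S : Type*} [CommRing R] [CommRing S] (φ : R →+* S) (N T : ℕ) [Finite σ]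
    {ι : Type*} (g : ι → MvPolynomial σ R) (b) (j : Exps σ N) :
    φ (rows N T g b j) = rows N T (fun i => map φ (g i)) b j := by
  rcases b with b | a
  · simp only [rows, vec_apply]
    rw [← coeff_map, map_mul, map_monomial, map_one]
  · simp only [rows, vec_apply, boxMon]
    rw [← coeff_map, map_monomial, map_one]

theorem span_mon_mul {L : Type*} [Field L] {ι : Type*} (g : ι → MvPolynomial σ L)
    {q : MvPolynomial σ L} (hq : q ∈ Ideal.span (Set.range g)) :
    q ∈ Submodule.span L (Set.range fun b : (σ →₀ ℕ) × ι => monomial b.1 (1 : L) * g b.2) := by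
  set M := Submodule.span L (Set.range fun b : (σ →₀ ℕ) × ι => monomial b.1 (1 : L) * g b.2)
    with hM
  have key : ∀ (a : MvPolynomial σ L) i, a * g i ∈ M := by
    intro a i
    induction a using MvPolynomial.induction_on' with
    | monomial u c =>
      have h1 : monomial u c = c • (monomial u (1 : L) : MvPolynomial σ L) := by
        rw [smul_monomial, smul_eq_mul, mul_one]
      rw [h1, smul_mul_assoc]
      exact M.smul_mem _ (Submodule.subset_span ⟨(u, i), rfl⟩)
    | add p q hp hq =>
      rw [add_mul]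
      exact M.add_mem hp hq
  rw [Ideal.span, Finsupp.mem_span_range_iff_exists_finsupp] at hq
  obtain ⟨c, rfl⟩ := hq
  exact Submodule.sum_mem _ fun i _ => key (c i) i

theorem mon_mul_mem {L : Type*} [Field L] {ι : Type*} (g : ι → MvPolynomial σ L)
    {q : MvPolynomial σ L}
    (hq : q ∈ Submodule.span L (Set.range fun b : (σ →₀ ℕ) × ι => monomial b.1 (1 : L) * g b.2)) :
    q ∈ Ideal.span (Set.range g) := by
  induction hq using Submodule.span_induction with
  | mem x hx =>
    obtain ⟨b, rfl⟩ := hx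
    exact Ideal.mul_mem_left _ _ (Ideal.subset_span ⟨b.2, rfl⟩)
  | zero => exact Ideal.zero_mem _
  | add x y _ _ hx hy => exact Ideal.add_mem _ hx hy
  | smul c x _ hx =>
    rw [Algebra.smul_def]
    exact Ideal.mul_mem_left _ _ hx

/-- Row spaces and ideals. -/
theorem rows_span_iff {L : Type*} [Field L] (N T : ℕ) [Finite σ] {ι : Type*}
    (g : ι → MvPolynomial σ L) :
    Submodule.span L (Set.range (rows N T g)) = ⊤ ↔
      ∀ f : MvPolynomial σ L, ∃ b ∈ Submodule.span L (Set.range (boxMon (σ := σ) L T)),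
        f - b ∈ Ideal.span (Set.range g) ⊔ idealOfVars σ L ^ (N + 1) := by
  have h0 : Submodule.span L (Set.range (rows N T g)) =
      (Submodule.span L (Set.range fun b : (σ →₀ ℕ) × ι => monomial b.1 (1 : L) * g b.2) ⊔
        Submodule.span L (Set.range (boxMon (σ := σ) L T))).map (vec N) := by
    rw [← Submodule.span_union, Submodule.map_span, Set.image_union, ← Set.range_comp,
      ← Set.range_comp]
    congr 1
    ext x
    constructor
    · rintro ⟨b | a, rfl⟩
      · exact Or.inl ⟨b, rfl⟩
      · exact Or.inr ⟨a, rfl⟩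
    · rintro (⟨b, rfl⟩ | ⟨a, rfl⟩)
      · exact ⟨Sum.inl b, rfl⟩
      · exact ⟨Sum.inr a, rfl⟩
  rw [h0]
  constructor
  · intro h f
    have h1 : vec N f ∈ (⊤ : Submodule L (Exps σ N → L)) := Submodule.mem_top
    rw [← h] at h1
    obtain ⟨x, hx, hxf⟩ := h1
    obtain ⟨p, hp, b, hb, rfl⟩ := Submodule.mem_sup.1 hx
    refine ⟨b, hb, ?_⟩
    have h2 : f - (p + b) ∈ idealOfVars σ L ^ (N + 1) := by
      rw [← vec_eq_zero_iff, map_sub, hxf, sub_self]
    have h3 : f - b = p + (f - (p + b)) := by ring
    rw [h3]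
    exact Submodule.add_mem_sup (mon_mul_mem g hp) h2
  · intro h
    rw [eq_top_iff]
    rintro x -
    obtain ⟨f, rfl⟩ := vec_surjective (σ := σ) (R := L) N x
    obtain ⟨b, hb, hf⟩ := h f
    obtain ⟨p, hp, r, hr, hpr⟩ := Submodule.mem_sup.1 hf
    have h2 : f = p + b + r := by rw [add_right_comm, hpr, sub_add_cancel]
    refine ⟨p + b, Submodule.add_mem_sup (span_mon_mul g hp) hb, ?_⟩
    rw [h2, map_add (vec N) (p + b) r, vec_eq_zero_iff.2 hr, add_zero]

/-- If `𝔪 ^ T ⊆ I + 𝔪 ^ (T + 1)` then the rows span. -/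
theorem rows_span {L : Type*} [Field L] (N T : ℕ) [Finite σ] {ι : Type*}
    (g : ι → MvPolynomial σ L)
    (h : idealOfVars σ L ^ T ≤ Ideal.span (Set.range g) ⊔ idealOfVars σ L ^ (T + 1)) :
    Submodule.span L (Set.range (rows N T g)) = ⊤ := by
  classical
  rw [rows_span_iff]
  intro f
  refine ⟨∑ α ∈ f.support.filter fun α => α.degree < T, monomial α (coeff α f), ?_, ?_⟩
  · refine Submodule.sum_mem _ fun α hα => ?_
    have h1 := (Finset.mem_filter.1 hα).2
    have h2 : ∀ i, α i < T := fun i => (Finsupp.le_degree i α).trans_lt h1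
    have h3 : monomial α (coeff α f) = (coeff α f) • boxMon L T fun i => ⟨α i, h2 i⟩ := by
      rw [boxMon, smul_monomial, smul_eq_mul, mul_one]
      congr 1
      ext i
      simp
    rw [h3]
    exact Submodule.smul_mem _ _ (Submodule.subset_span ⟨_, rfl⟩)
  · have h1 : f - ∑ α ∈ f.support.filter fun α => α.degree < T, monomial α (coeff α f) ∈
        idealOfVars σ L ^ T := by
      rw [mem_pow_idealOfVars_iff']
      intro x hx
      rw [coeff_sub, coeff_sum]
      simp only [coeff_monomial]
      rw [Finset.sum_ite_eq']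
      split_ifs with h2
      · rw [sub_self]
      · rw [sub_zero]
        by_contra h3
        exact h2 (Finset.mem_filter.2 ⟨mem_support_iff.2 h3, hx⟩)
    have h2 := pow_le_sup_pow h (N + 1) h1
    have h3 : idealOfVars σ L ^ (T + (N + 1)) ≤ idealOfVars σ L ^ (N + 1) :=
      Ideal.pow_le_pow_right (by omega)
    exact (sup_le_sup (le_refl (Ideal.span (Set.range g))) h3) h2

end Rows

end Pool.Agent.TG42
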