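import Pool.Agent.Lib.TG42.J2

/-!
# C42, row C3 (jets): the generators and the substitution of lines
-/

set_option autoImplicit false

namespace Pool.Agent.TG42

open MvPolynomial Module

section Gens

variable {σ : Type*} [Fintype σ] [DecidableEq σ]

/-- `G ^ 2` times the Jacobian matrix of `h / G`. -/
noncomputable def jmat {R : Type*} [CommRing R] (G : MvPolynomial σ R)
    (h : σ → MvPolynomial σ R) : Matrix σ σ (MvPolynomial σ R) :=
  Matrix.of fun i j => G * pderiv j (h i) - h i * pderiv j G

/-- Its determinant. -/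
noncomputable def jac {R : Type*} [CommRing R] (G : MvPolynomial σ R)
    (h : σ → MvPolynomial σ R) : MvPolynomial σ R := (jmat G h).det

/-- The generators `h i`, `i ≠ l`, and `D * h l * jac`. -/
noncomputable def gens {R : Type*} [CommRing R] (l : σ) (D G : MvPolynomial σ R)
    (h : σ → MvPolynomial σ R) (i : σ) : MvPolynomial σ R :=
  if i = l then D * h l * jac G h else h i

theorem map_jac {R S : Type*} [CommRing R] [CommRing S] (φ : R →+* S) (G : MvPolynomial σ R)
    (h : σ → MvPolynomial σ R) : map φ (jac G h) = jac (map φ G) fun i => map φ (h i) := by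
  rw [jac, RingHom.map_det, jac]
  congr 1
  ext1 i j
  simp only [jmat, RingHom.mapMatrix_apply, Matrix.map_apply, Matrix.of_apply, map_sub, map_mul,
    pderiv_map]

theorem map_gens {R S : Type*} [CommRing R] [CommRing S] (φ : R →+* S) (l : σ)
    (D G : MvPolynomial σ R) (h : σ → MvPolynomial σ R) (i : σ) :
    map φ (gens l D G h i) = gens l (map φ D) (map φ G) (fun i => map φ (h i)) i := by
  unfold gens
  split_ifs with hi
  · rw [map_mul, map_mul, map_jac]
  · rfl

theorem jac_smul {R : Type*} [CommRing R] (c : R) (G : MvPolynomial σ R)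
    (h : σ → MvPolynomial σ R) :
    jac G (fun i => C c * h i) = C c ^ Fintype.card σ * jac G h := by
  rw [jac, jac, ← Matrix.det_smul]
  congr 1
  ext1 i j
  simp only [jmat, Matrix.of_apply, Matrix.smul_apply, smul_eq_mul, pderiv_C_mul]
  ring

theorem span_gens_smul {L : Type*} [Field L] {c : L} (hc : c ≠ 0) (l : σ)
    (D G : MvPolynomial σ L) (h : σ → MvPolynomial σ L) :
    Ideal.span (Set.range (gens l D G fun i => C c * h i)) =
      Ideal.span (Set.range (gens l D G h)) := by
  have key : ∀ (c : L), c ≠ 0 → ∀ h : σ → MvPolynomial σ L,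
      Ideal.span (Set.range (gens l D G fun i => C c * h i)) ≤
        Ideal.span (Set.range (gens l D G h)) := by
    intro c _ h
    rw [Ideal.span_le]
    rintro _ ⟨i, rfl⟩
    have h1 : gens l D G h i ∈ Ideal.span (Set.range (gens l D G h)) :=
      Ideal.subset_span ⟨i, rfl⟩
    by_cases hi : i = l
    · have h2 : gens l D G (fun i => C c * h i) i =
          C c ^ (Fintype.card σ + 1) * gens l D G h i := by
        simp only [gens, if_pos hi, jac_smul]
        ring
      rw [h2]
      exact Ideal.mul_mem_left _ _ h1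
    · have h2 : gens l D G (fun i => C c * h i) i = C c * gens l D G h i := by
        simp only [gens, if_neg hi]
      rw [h2]
      exact Ideal.mul_mem_left _ _ h1
  refine le_antisymm (key c hc h) ?_
  have h1 := key c⁻¹ (inv_ne_zero hc) fun i => C c * h i
  have h2 : (fun i => C c⁻¹ * (C c * h i)) = h := by
    funext i
    rw [← mul_assoc, ← C_mul, inv_mul_cancel₀ hc, C_1, one_mul]
  rwa [h2] at h1

end Gens

section Line

variable {σ : Type*} {E : Type*} [Field E]

/-- The restriction to the line `t ↦ t c`. -/
noncomputable def lin (c : σ → E) : MvPolynomial σ E →ₐ[E] Polynomial E :=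
  aeval fun i => Polynomial.C (c i) * Polynomial.X

theorem lin_X (c : σ → E) (i : σ) : lin c (X i) = Polynomial.C (c i) * Polynomial.X := by
  rw [lin, aeval_X]

theorem lin_C (c : σ → E) (a : E) : lin c (C a) = Polynomial.C a := by
  rw [lin, algHom_C]
  rfl

theorem lin_monomial (c : σ → E) (α : σ →₀ ℕ) (a : E) :
    lin c (monomial α a) = Polynomial.C (eval c (monomial α a)) * Polynomial.X ^ α.degree := by
  rw [lin, aeval_monomial, eval_monomial, Polynomial.C_mul, mul_assoc]
  congr 1
  rw [Finsupp.prod, Finsupp.prod, Finsupp.degree_apply, map_prod, ← Finset.prod_pow_eq_pow_sum,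
    ← Finset.prod_mul_distrib]
  refine Finset.prod_congr rfl fun i _ => ?_
  rw [mul_pow, Polynomial.C_pow]

theorem lin_homog {c : σ → E} {f : MvPolynomial σ E} {d : ℕ} (hf : f.IsHomogeneous d) :
    lin c f = Polynomial.C (eval c f) * Polynomial.X ^ d := by
  conv_lhs => rw [f.as_sum, map_sum]
  conv_rhs => rw [f.as_sum, map_sum, map_sum, Finset.sum_mul]
  refine Finset.sum_congr rfl fun α hα => ?_
  rw [lin_monomial]
  have h1 := hf (mem_support_iff.1 hα)
  rw [Finsupp.degree_eq_weight_one]
  congr 2

theorem coeff_lin (c : σ → E) (f : MvPolynomial σ E) (d : ℕ) :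
    (lin c f).coeff d = eval c (homogeneousComponent d f) := by
  conv_lhs => rw [← sum_homogeneousComponent f, map_sum, Polynomial.finsetSum_coeff]
  have h1 : ∀ i, (lin c (homogeneousComponent i f)).coeff d =
      if i = d then eval c (homogeneousComponent d f) else 0 := by
    intro i
    rw [lin_homog (homogeneousComponent_isHomogeneous i f), Polynomial.coeff_C_mul,
      Polynomial.coeff_X_pow]
    by_cases h : i = d
    · subst h; simp
    · rw [if_neg h, if_neg (fun h' => h h'.symm), mul_zero]
  simp only [h1]
  rw [Finset.sum_ite_eq' ]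
  split_ifs with h2
  · rfl
  · rw [homogeneousComponent_eq_zero, map_zero]
    simpa using h2

theorem lin_ord {c : σ → E} {f : MvPolynomial σ E} {b : ℕ}
    (h0 : ∀ d < b, homogeneousComponent d f = 0) :
    ∃ u : Polynomial E, lin c f = Polynomial.X ^ b * u ∧
      u.coeff 0 = eval c (homogeneousComponent b f) := by
  have h1 : Polynomial.X ^ b ∣ lin c f := by
    rw [Polynomial.X_pow_dvd_iff]
    intro d hd
    rw [coeff_lin, h0 d hd, map_zero]
  obtain ⟨u, hu⟩ := h1
  refine ⟨u, hu, ?_⟩
  rw [← coeff_lin, hu]
  conv_rhs => rw [show b = 0 + b from (zero_add b).symm]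
  rw [zero_add, Polynomial.coeff_X_pow_mul']
  simp

end Line

end Pool.Agent.TG42
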