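import Pool.Agent.Lib.TG42.J3

/-!
# C42, row C3 (jets): the special forms
-/

set_option autoImplicit false

namespace Pool.Agent.TG42

open MvPolynomial Module

section Special

variable {σ : Type*} [Fintype σ] [DecidableEq σ] {E : Type*} [Field E] {l : σ} {s : ℕ}

/-- Products of `s` linear forms, and `X l ^ s`. -/
noncomputable def psp (l : σ) {s : ℕ} (θ : {i // i ≠ l} → Fin s → E) (i : σ) : MvPolynomial σ E :=
  if h : i = l then X l ^ s else ∏ c : Fin s, (X i - C (θ ⟨i, h⟩ c) * X l)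

/-- The lines. -/
def pt {E : Type*} [Field E] (l : σ) {s : ℕ} (θ : {i // i ≠ l} → Fin s → E)
    (a : {i // i ≠ l} → Fin s) (i : σ) : E :=
  if h : i = l then 1 else θ ⟨i, h⟩ (a ⟨i, h⟩)

variable {θ : {i // i ≠ l} → Fin s → E}

omit [Fintype σ] in
theorem psp_l : psp l θ l = X l ^ s := by rw [psp, dif_pos rfl]

omit [Fintype σ] in
theorem psp_ne {i : σ} (h : i ≠ l) : psp l θ i = ∏ c : Fin s, (X i - C (θ ⟨i, h⟩ c) * X l) := by
  rw [psp, dif_neg h]

omit [Fintype σ] in
theorem psp_homog (i : σ) : (psp l θ i).IsHomogeneous s := by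
  by_cases h : i = l
  · subst h
    rw [psp_l]
    exact isHomogeneous_X_pow _ _
  · rw [psp_ne h]
    have h1 : (∏ c : Fin s, (X i - C (θ ⟨i, h⟩ c) * X l) : MvPolynomial σ E).IsHomogeneous
        (∑ _c : Fin s, 1) := by
      refine IsHomogeneous.prod _ _ _ fun c _ => ?_
      refine (isHomogeneous_X _ _).sub ?_
      have := (isHomogeneous_C σ (θ ⟨i, h⟩ c)).mul (isHomogeneous_X E l)
      simpa using this
    simpa using h1

omit [Fintype σ] in
theorem pt_l (a : {i // i ≠ l} → Fin s) : pt l θ a l = 1 := by rw [pt, dif_pos rfl]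

omit [Fintype σ] in
theorem pt_ne (a : {i // i ≠ l} → Fin s) {i : σ} (h : i ≠ l) :
    pt l θ a i = θ ⟨i, h⟩ (a ⟨i, h⟩) := by rw [pt, dif_neg h]

omit [Fintype σ] in
theorem eval_psp_ne (a : {i // i ≠ l} → Fin s) {i : σ} (h : i ≠ l) :
    eval (pt l θ a) (psp l θ i) = 0 := by
  rw [psp_ne h, map_prod]
  refine Finset.prod_eq_zero (Finset.mem_univ (a ⟨i, h⟩)) ?_
  rw [map_sub, map_mul, eval_X, eval_C, eval_X, pt_ne a h, pt_l, mul_one, sub_self]

omit [Fintype σ] in
theorem eval_psp_l (a : {i // i ≠ l} → Fin s) : eval (pt l θ a) (psp l θ l) = 1 := by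
  rw [psp_l, map_pow, eval_X, pt_l, one_pow]

omit [Fintype σ] in
theorem eval_pderiv_l (a : {i // i ≠ l} → Fin s) (j : σ) :
    eval (pt l θ a) (pderiv j (psp l θ l)) = if j = l then (s : E) else 0 := by
  rw [psp_l, Derivation.leibniz_pow, pderiv_X]
  by_cases hj : j = l
  · subst hj
    simp [pt_l]
  · rw [if_neg hj]
    have : (Pi.single j 1 : σ → MvPolynomial σ E) l = 0 := by
      rw [Pi.single_eq_of_ne (Ne.symm hj)]
    simp [this]

omit [Fintype σ] in
theorem eval_pderiv_ne (a : {i // i ≠ l} → Fin s) {i : σ} (h : i ≠ l) (j : σ) :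
    eval (pt l θ a) (pderiv j (psp l θ i)) =
      eval (pt l θ a) (pderiv j (X i - C (θ ⟨i, h⟩ (a ⟨i, h⟩)) * X l)) *
        ∏ c ∈ Finset.univ.erase (a ⟨i, h⟩), (θ ⟨i, h⟩ (a ⟨i, h⟩) - θ ⟨i, h⟩ c) := by
  rw [psp_ne h, ← Finset.mul_prod_erase Finset.univ _ (Finset.mem_univ (a ⟨i, h⟩)),
    Derivation.leibniz]
  rw [smul_eq_mul, smul_eq_mul, map_add, map_mul, map_mul]
  have h1 : eval (pt l θ a) (X i - C (θ ⟨i, h⟩ (a ⟨i, h⟩)) * X l) = 0 := by
    rw [map_sub, map_mul, eval_X, eval_C, eval_X, pt_ne a h, pt_l, mul_one, sub_self]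
  rw [h1, zero_mul, zero_add, mul_comm]
  congr 1
  rw [map_prod]
  refine Finset.prod_congr rfl fun c _ => ?_
  rw [map_sub, map_mul, eval_X, eval_C, eval_X, pt_ne a h, pt_l, mul_one]

/-- The Jacobian matrix of the special forms is invertible at the lines. -/
theorem det_ne_zero (hs : (s : E) ≠ 0) (hθ : ∀ i, Function.Injective (θ i))
    (a : {i // i ≠ l} → Fin s) :
    (Matrix.of fun i j => eval (pt l θ a) (pderiv j (psp l θ i))).det ≠ 0 := by
  intro h0
  obtain ⟨v, hv, hv0⟩ := Matrix.exists_mulVec_eq_zero_iff.2 h0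
  apply hv
  have hl : v l = 0 := by
    have h1 := congrFun hv0 l
    rw [Matrix.mulVec, dotProduct] at h1
    simp only [Matrix.of_apply, eval_pderiv_l, Pi.zero_apply, ite_mul, zero_mul,
      Finset.sum_ite_eq', Finset.mem_univ, if_true] at h1
    exact (mul_eq_zero.1 h1).resolve_left hs
  funext i
  rw [Pi.zero_apply]
  by_cases h : i = l
  · rw [h, hl]
  have h1 := congrFun hv0 i
  rw [Matrix.mulVec, dotProduct] at h1
  simp only [Matrix.of_apply, eval_pderiv_ne a h, Pi.zero_apply] at h1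
  rw [Finset.sum_eq_single i] at h1
  · rcases mul_eq_zero.1 h1 with h2 | h2
    · exfalso
      rcases mul_eq_zero.1 h2 with h3 | h3
      · rw [map_sub, pderiv_X_self, pderiv_C_mul, pderiv_X_of_ne (Ne.symm h), mul_zero, sub_zero,
          map_one] at h3
        exact one_ne_zero h3
      · obtain ⟨c, hc, hc0⟩ := Finset.prod_eq_zero_iff.1 h3
        rw [sub_eq_zero] at hc0
        exact Finset.ne_of_mem_erase hc (hθ _ hc0).symm
    · exact h2
  · intro j _ hj
    by_cases hjl : j = l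
    · rw [hjl, hl, mul_zero]
    · rw [map_sub, pderiv_C_mul, pderiv_X_of_ne (Ne.symm hj), pderiv_X_of_ne (Ne.symm hjl)]
      simp
  · intro h2
    exact absurd (Finset.mem_univ _) h2

omit [Fintype σ] in
theorem lin_eq_eval_psp (a : {i // i ≠ l} → Fin s) (i : σ) :
    lin (pt l θ a) (psp l θ i) =
      Polynomial.C (eval (pt l θ a) (psp l θ i)) * Polynomial.X ^ s := lin_homog (psp_homog i)

/-- The restriction of the jacobian determinant to a line. -/
theorem lin_jac (hs1 : 1 ≤ s) (hs : (s : E) ≠ 0) (hθ : ∀ i, Function.Injective (θ i))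
    (G : MvPolynomial σ E) (hG : coeff 0 G ≠ 0) (a : {i // i ≠ l} → Fin s) :
    ∃ w : Polynomial E, lin (pt l θ a) (jac G (psp l θ)) =
      Polynomial.X ^ ((s - 1) * Fintype.card σ) * w ∧ w.coeff 0 ≠ 0 := by
  set c := pt l θ a with hc
  let M : Matrix σ σ (Polynomial E) := Matrix.of fun i j =>
    lin c G * Polynomial.C (eval c (pderiv j (psp l θ i))) -
      Polynomial.C (eval c (psp l θ i)) * Polynomial.X * lin c (pderiv j G)
  refine ⟨M.det, ?_, ?_⟩
  · have h1 : (lin c).mapMatrix (jmat G (psp l θ)) = ((Polynomial.X : Polynomial E) ^ (s - 1)) • M := by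
      ext1 i j
      simp only [jmat, M, AlgHom.mapMatrix_apply, Matrix.map_apply, Matrix.of_apply, map_sub,
        map_mul, Matrix.smul_apply, smul_eq_mul]
      have hpd : (pderiv j (psp l θ i)).IsHomogeneous (s - 1) := (psp_homog i).pderiv
      rw [lin_homog (psp_homog i), lin_homog hpd]
      obtain ⟨s', rfl⟩ := Nat.exists_eq_add_of_le' hs1
      rw [Nat.add_sub_cancel, pow_succ]
      ring
    have h2 : lin c (jac G (psp l θ)) = ((lin c).mapMatrix (jmat G (psp l θ))).det := by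
      rw [jac, AlgHom.map_det]
    rw [h2, h1, Matrix.det_smul, ← pow_mul]
  · have h1 : M.det.coeff 0 = (Polynomial.constantCoeff M.det) := rfl
    rw [h1, RingHom.map_det]
    have h2 : Polynomial.constantCoeff.mapMatrix M =
        (coeff 0 G) • (Matrix.of fun i j => eval c (pderiv j (psp l θ i))) := by
      ext1 i j
      simp only [M, RingHom.mapMatrix_apply, Matrix.map_apply, Matrix.of_apply, Matrix.smul_apply,
        smul_eq_mul, map_sub, map_mul, Polynomial.constantCoeff_apply]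
      rw [coeff_lin, homogeneousComponent_zero, Polynomial.coeff_C_zero, Polynomial.coeff_C_zero,
        Polynomial.coeff_X_zero, eval_C, mul_zero, zero_mul, sub_zero]
    rw [h2, Matrix.det_smul]
    exact mul_ne_zero (pow_ne_zero _ hG) (det_ne_zero hs hθ a)

/-- The restriction of the last generator to a line. -/
theorem lin_gens (hs1 : 1 ≤ s) (hs : (s : E) ≠ 0) (hθ : ∀ i, Function.Injective (θ i))
    (G : MvPolynomial σ E) (hG : coeff 0 G ≠ 0) (D : MvPolynomial σ E) {b : ℕ}
    (h0 : ∀ d < b, homogeneousComponent d D = 0) (a : {i // i ≠ l} → Fin s)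
    (ha : eval (pt l θ a) (homogeneousComponent b D) ≠ 0) :
    ∃ v : Polynomial E, lin (pt l θ a) (gens l D G (psp l θ) l) =
      Polynomial.X ^ (b + s + (s - 1) * Fintype.card σ) * v ∧ v.coeff 0 ≠ 0 := by
  obtain ⟨w, hw, hw0⟩ := lin_jac hs1 hs hθ G hG a
  obtain ⟨u, hu, hu0⟩ := lin_ord (c := pt l θ a) h0
  refine ⟨u * w, ?_, ?_⟩
  · rw [gens, if_pos rfl, map_mul, map_mul, hw, hu, lin_homog (psp_homog l), eval_psp_l,
      Polynomial.C_1, pow_add, pow_add]
    ring
  · rw [Polynomial.mul_coeff_zero, hu0]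
    exact mul_ne_zero ha hw0

end Special

end Pool.Agent.TG42
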