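import Pool.Agent.Lib.TG42.J4
import Pool.Agent.Lib.TG42.C3Stmt

/-!
# C42, row C3 (jets): interpolation on the lines, the special ideal
-/

set_option autoImplicit false

namespace Pool.Agent.TG42

open MvPolynomial Module

section Null

variable {σ : Type*} [Fintype σ] [DecidableEq σ] {E : Type*} [Field E] {l : σ} {s : ℕ}
  {θ : {i // i ≠ l} → Fin s → E}

/-- The coordinate change. -/
noncomputable def psi (E : Type*) [Field E] (l : σ) :
    MvPolynomial σ E →+* MvPolynomial {i // i ≠ l} (Polynomial E) :=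
  eval₂Hom (C.comp Polynomial.C) fun i => if h : i = l then C Polynomial.X else X ⟨i, h⟩

/-- The inverse coordinate change. -/
noncomputable def psi' (E : Type*) [Field E] (l : σ) :
    MvPolynomial {i // i ≠ l} (Polynomial E) →+* MvPolynomial σ E :=
  eval₂Hom (Polynomial.aeval (X l : MvPolynomial σ E)).toRingHom fun i => X i.1

omit [Fintype σ] in
theorem psi'_psi (f : MvPolynomial σ E) : psi' E l (psi E l f) = f := by
  have h : (psi' E l).comp (psi E l) = RingHom.id _ := by
    apply MvPolynomial.ringHom_ext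
    · intro r
      simp only [RingHom.comp_apply, psi, psi', coe_eval₂Hom, eval₂_C, RingHom.id_apply]
      change Polynomial.aeval (X l : MvPolynomial σ E) (Polynomial.C r) = C r
      rw [Polynomial.aeval_C]
      rfl
    · intro i
      simp only [RingHom.comp_apply, psi, coe_eval₂Hom, eval₂_X, RingHom.id_apply]
      split_ifs with h
      · subst h
        simp only [psi', coe_eval₂Hom, eval₂_C]
        change Polynomial.aeval (X i : MvPolynomial σ E) Polynomial.X = X i
        rw [Polynomial.aeval_X]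
      · simp only [psi', coe_eval₂Hom, eval₂_X]
  have := RingHom.congr_fun h f
  simpa using this

omit [Fintype σ] in
theorem eval_psi (a : {i // i ≠ l} → Fin s) (f : MvPolynomial σ E) :
    eval (fun i : {i // i ≠ l} => Polynomial.C (θ i (a i)) * Polynomial.X) (psi E l f) =
      lin (pt l θ a) f := by
  have h : (eval (fun i : {i // i ≠ l} => Polynomial.C (θ i (a i)) * Polynomial.X)).comp
      (psi E l) = (lin (pt l θ a) : MvPolynomial σ E →+* Polynomial E) := by
    apply MvPolynomial.ringHom_ext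
    · intro r
      simp only [RingHom.comp_apply, psi, coe_eval₂Hom, eval₂_C, RingHom.coe_coe, eval_C]
      rw [lin_C]
    · intro i
      simp only [RingHom.comp_apply, psi, coe_eval₂Hom, eval₂_X, RingHom.coe_coe, lin_X]
      split_ifs with h
      · subst h
        rw [eval_C, pt_l, Polynomial.C_1, one_mul]
      · rw [eval_X, pt_ne a h]
  exact RingHom.congr_fun h f

/-- A polynomial vanishing on all lines is in the ideal of the products. -/
theorem mem_of_lin_eq_zero (hs1 : 1 ≤ s) (hθ : ∀ i, Function.Injective (θ i))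
    {f : MvPolynomial σ E} (hf : ∀ a : {i // i ≠ l} → Fin s, lin (pt l θ a) f = 0)
    {I : Ideal (MvPolynomial σ E)} (hI : ∀ i, i ≠ l → psp l θ i ∈ I) : f ∈ I := by
  classical
  let S : {i // i ≠ l} → Finset (Polynomial E) := fun i =>
    Finset.univ.image fun c : Fin s => Polynomial.C (θ i c) * Polynomial.X
  have hne : ∀ i, (S i).Nonempty := fun i => ⟨_, Finset.mem_image_of_mem _
    (Finset.mem_univ (⟨0, hs1⟩ : Fin s))⟩
  obtain ⟨h, -, hh⟩ := combinatorial_nullstellensatz_exists_linearCombination S hne (psi E l f)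
    (by
      intro x hx
      have h1 : ∀ i, ∃ c : Fin s, Polynomial.C (θ i c) * Polynomial.X = x i := fun i => by
        obtain ⟨c, -, hc⟩ := Finset.mem_image.1 (hx i)
        exact ⟨c, hc⟩
      choose a ha using h1
      have h2 : x = fun i => Polynomial.C (θ i (a i)) * Polynomial.X := by
        funext i
        exact (ha i).symm
      rw [h2, eval_psi, hf])
  rw [← psi'_psi (l := l) f, hh, Finsupp.linearCombination_apply, Finsupp.sum, map_sum]
  refine Ideal.sum_mem _ fun i _ => ?_
  rw [smul_eq_mul, map_mul]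
  refine Ideal.mul_mem_left _ _ ?_
  have h1 : psi' E l (∏ r ∈ S i, (X i - C r)) = psp l θ i.1 := by
    rw [psp_ne i.2, map_prod, Finset.prod_image]
    · refine Finset.prod_congr rfl fun c _ => ?_
      rw [map_sub]
      simp only [psi', coe_eval₂Hom, eval₂_X, eval₂_C]
      congr 1
      change Polynomial.aeval (X l : MvPolynomial σ E) (Polynomial.C (θ i c) * Polynomial.X) = _
      rw [map_mul, Polynomial.aeval_C, Polynomial.aeval_X]
      rfl
    · intro c _ c' _ hcc
      have h2 : Polynomial.C (θ i c) = Polynomial.C (θ i c') :=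
        mul_right_cancel₀ Polynomial.X_ne_zero hcc
      exact hθ i (Polynomial.C_injective h2)
  rw [h1]
  exact hI i.1 i.2

/-- Lagrange factors. -/
noncomputable def lag (l : σ) {s : ℕ} (θ : {i // i ≠ l} → Fin s → E) (i : {i // i ≠ l})
    (c : Fin s) : MvPolynomial σ E :=
  ∏ c' ∈ Finset.univ.erase c, (C ((θ i c - θ i c')⁻¹) * (X i.1 - C (θ i c') * X l))

omit [Fintype σ] in
theorem lin_lag (hθ : ∀ i, Function.Injective (θ i)) (b : {i // i ≠ l} → Fin s)
    (i : {i // i ≠ l}) (c : Fin s) :
    lin (pt l θ b) (lag l θ i c) = if b i = c then Polynomial.X ^ (s - 1) else 0 := by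
  classical
  have h0 : ∀ c', lin (pt l θ b) (C ((θ i c - θ i c')⁻¹) * (X i.1 - C (θ i c') * X l)) =
      Polynomial.C ((θ i c - θ i c')⁻¹) *
        (Polynomial.C (θ i (b i) - θ i c') * Polynomial.X) := by
    intro c'
    rw [map_mul, map_sub, map_mul, lin_C, lin_C, lin_X, lin_X, pt_l, pt_ne b i.2,
      Polynomial.C_1, one_mul, Polynomial.C_sub, sub_mul]
  rw [lag, map_prod]
  simp only [h0]
  split_ifs with h
  · subst h
    have h1 : ∀ c' ∈ Finset.univ.erase (b i), Polynomial.C ((θ i (b i) - θ i c')⁻¹) *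
        (Polynomial.C (θ i (b i) - θ i c') * Polynomial.X) = (Polynomial.X : Polynomial E) := by
      intro c' hc'
      have h2 : θ i (b i) - θ i c' ≠ 0 := by
        rw [sub_ne_zero]
        exact fun h => Finset.ne_of_mem_erase hc' (hθ i h).symm
      rw [← mul_assoc, ← Polynomial.C_mul, inv_mul_cancel₀ h2, Polynomial.C_1, one_mul]
    rw [Finset.prod_congr rfl h1, Finset.prod_const, Finset.card_erase_of_mem (Finset.mem_univ _),
      Finset.card_univ, Fintype.card_fin]
  · refine Finset.prod_eq_zero (Finset.mem_erase.2 ⟨h, Finset.mem_univ (b i)⟩) ?_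
    rw [sub_self, Polynomial.C_0, zero_mul, mul_zero]

omit [Fintype σ] in
theorem lin_aeval_X (b : {i // i ≠ l} → Fin s) (p : Polynomial E) :
    lin (pt l θ b) (Polynomial.aeval (X l : MvPolynomial σ E) p) = p := by
  rw [← Polynomial.aeval_algHom_apply, lin_X, pt_l, Polynomial.C_1, one_mul,
    Polynomial.aeval_X_left_apply]

/-- Interpolation: `X l ^ M` times a unit at `0` is in the ideal. -/
theorem pow_mul_mem (hs1 : 1 ≤ s) (hθ : ∀ i, Function.Injective (θ i))
    {I : Ideal (MvPolynomial σ E)} (hI : ∀ i, i ≠ l → psp l θ i ∈ I) {F : MvPolynomial σ E}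
    (hF : F ∈ I) {e : ℕ} (v : ({i // i ≠ l} → Fin s) → Polynomial E)
    (hv : ∀ a, lin (pt l θ a) F = Polynomial.X ^ e * v a) :
    X l ^ (e + (s - 1) * Fintype.card {i // i ≠ l}) *
      Polynomial.aeval (X l : MvPolynomial σ E) (∏ a, v a) ∈ I := by
  classical
  let Q : MvPolynomial σ E := ∑ a : {i // i ≠ l} → Fin s,
    Polynomial.aeval (X l : MvPolynomial σ E) (∏ a' ∈ Finset.univ.erase a, v a') *
      ∏ i, lag l θ i (a i)
  have hQ : ∀ b, lin (pt l θ b) Q = (∏ a' ∈ Finset.univ.erase b, v a') *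
      Polynomial.X ^ ((s - 1) * Fintype.card {i // i ≠ l}) := by
    intro b
    rw [map_sum, Finset.sum_eq_single b]
    · rw [map_mul, lin_aeval_X, map_prod]
      congr 1
      have h1 : ∀ i ∈ (Finset.univ : Finset {i // i ≠ l}),
          lin (pt l θ b) (lag l θ i (b i)) = Polynomial.X ^ (s - 1) := by
        intro i _
        rw [lin_lag hθ, if_pos rfl]
      rw [Finset.prod_congr rfl h1, Finset.prod_const, Finset.card_univ, ← pow_mul]
    · intro a _ hab
      obtain ⟨i, hi⟩ : ∃ i, b i ≠ a i := by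
        by_contra hcon
        push Not at hcon
        exact hab (funext fun i => (hcon i).symm)
      have h1 : lin (pt l θ b) (∏ i, lag l θ i (a i)) = 0 := by
        rw [map_prod]
        exact Finset.prod_eq_zero (Finset.mem_univ i) (by rw [lin_lag hθ, if_neg hi])
      rw [map_mul, h1, mul_zero]
    · intro h
      exact absurd (Finset.mem_univ b) h
  have h2 : X l ^ (e + (s - 1) * Fintype.card {i // i ≠ l}) *
      Polynomial.aeval (X l : MvPolynomial σ E) (∏ a, v a) - F * Q ∈ I := by
    refine mem_of_lin_eq_zero hs1 hθ (fun b => ?_) hI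
    rw [map_sub, map_mul, map_mul, map_pow, lin_aeval_X, hQ, hv, lin_X, pt_l, Polynomial.C_1,
      one_mul, ← Finset.mul_prod_erase Finset.univ v (Finset.mem_univ b), pow_add]
    ring
  have h3 := I.add_mem h2 (I.mul_mem_right Q hF)
  rwa [sub_add_cancel] at h3

omit [Fintype σ] in
theorem exists_pow_sub {i : σ} (h : i ≠ l) :
    ∃ r : MvPolynomial σ E, X i ^ s = psp l θ i + X l * r := by
  classical
  have key : ∀ (S : Finset (Fin s)), ∃ r : MvPolynomial σ E,
      X i ^ S.card = ∏ c ∈ S, (X i - C (θ ⟨i, h⟩ c) * X l) + X l * r := by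
    intro S
    induction S using Finset.induction_on with
    | empty => exact ⟨0, by simp⟩
    | insert c S hc ih =>
      obtain ⟨r, hr⟩ := ih
      refine ⟨X i * r + C (θ ⟨i, h⟩ c) * ∏ c ∈ S, (X i - C (θ ⟨i, h⟩ c) * X l), ?_⟩
      rw [Finset.card_insert_of_notMem hc, pow_succ, hr, Finset.prod_insert hc]
      ring
  obtain ⟨r, hr⟩ := key Finset.univ
  refine ⟨r, ?_⟩
  rw [psp_ne h]
  simpa using hr

omit [Fintype σ] in
/-- All variables are nilpotent modulo the ideal, up to a unit. -/
theorem var_pow_mul_mem (hs1 : 1 ≤ s) {I : Ideal (MvPolynomial σ E)}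
    (hI : ∀ i, i ≠ l → psp l θ i ∈ I) {M : ℕ} {V : MvPolynomial σ E} (hV : X l ^ M * V ∈ I)
    (i : σ) : X i ^ (s * M) * V ∈ I := by
  by_cases h : i = l
  · subst h
    have h1 : M ≤ s * M := Nat.le_mul_of_pos_left M hs1
    obtain ⟨d, hd⟩ := Nat.exists_eq_add_of_le h1
    rw [hd, pow_add, mul_comm (X i ^ M), mul_assoc]
    exact I.mul_mem_left _ hV
  · obtain ⟨r, hr⟩ := exists_pow_sub (θ := θ) h
    rw [pow_mul, hr]
    obtain ⟨w, hw⟩ : psp l θ i ∣ (psp l θ i + X l * r) ^ M - (X l * r) ^ M := by
      have := sub_dvd_pow_sub_pow (psp l θ i + X l * r) (X l * r) M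
      rwa [add_sub_cancel_right] at this
    have h2 : (psp l θ i + X l * r) ^ M * V = psp l θ i * (w * V) + r ^ M * (X l ^ M * V) := by
      have h3 : (psp l θ i + X l * r) ^ M = psp l θ i * w + (X l * r) ^ M := by
        rw [← hw]; ring
      rw [h3, mul_pow]
      ring
    rw [h2]
    exact I.add_mem (I.mul_mem_right _ (hI i h)) (I.mul_mem_left _ hV)

/-- If `X i ^ m * V ∈ I` for all `i` and `V(0) ≠ 0` then `𝔪 ^ (n m) ⊆ I + 𝔪 ^ (n m + 1)`. -/
theorem pow_le_of_var [Nonempty σ] {I : Ideal (MvPolynomial σ E)} {m : ℕ}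
    {V : MvPolynomial σ E} (hV : ∀ i, X i ^ m * V ∈ I) (hV0 : coeff 0 V ≠ 0) :
    idealOfVars σ E ^ (Fintype.card σ * m) ≤ I ⊔ idealOfVars σ E ^ (Fintype.card σ * m + 1) := by
  classical
  rw [pow_idealOfVars_eq_span, Ideal.span_le]
  rintro _ ⟨α, hα, rfl⟩
  have hα' : α.degree = Fintype.card σ * m := hα
  have h1 : monomial α (1 : E) * V ∈ I := by
    obtain ⟨i, hi⟩ : ∃ i, m ≤ α i := by
      by_contra hcon
      push Not at hcon
      have h2 : α.degree < Fintype.card σ * m := by
        rw [Finsupp.degree_eq_sum]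
        calc ∑ i, α i < ∑ _i : σ, m :=
              Finset.sum_lt_sum_of_nonempty Finset.univ_nonempty fun i _ => hcon i
          _ = Fintype.card σ * m := by simp
      omega
    have h2 : monomial α (1 : E) =
        monomial (α - Finsupp.single i m) (1 : E) * (X i ^ m) := by
      rw [X_pow_eq_monomial, monomial_mul, mul_one]
      congr 2
      ext j
      rw [Finsupp.add_apply, Finsupp.tsub_apply]
      by_cases hj : j = i
      · subst hj
        rw [Finsupp.single_eq_same]; omega
      · rw [Finsupp.single_eq_of_ne hj]; omega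
    rw [h2, mul_assoc]
    exact I.mul_mem_left _ (hV i)
  have h2 : V - C (coeff 0 V) ∈ idealOfVars σ E := by
    rw [← pow_one (idealOfVars σ E), mem_pow_idealOfVars_iff']
    intro x hx
    have hx0 : x = 0 := by
      rw [Nat.lt_one_iff, Finsupp.degree_eq_zero_iff] at hx
      exact hx
    rw [hx0, coeff_sub, coeff_zero_C, sub_self]
  have h3 : monomial α (1 : E) ∈ idealOfVars σ E ^ (Fintype.card σ * m) := by
    rw [monomial_mem_pow_idealOfVars_iff _ _ one_ne_zero]
    exact hα'.ge
  have h4 : monomial α (1 : E) = C (coeff 0 V)⁻¹ * (monomial α (1 : E) * V) -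
      C (coeff 0 V)⁻¹ * (monomial α (1 : E) * (V - C (coeff 0 V))) := by
    have h5 : (C (coeff 0 V)⁻¹ * C (coeff 0 V) : MvPolynomial σ E) = 1 := by
      rw [← C_mul, inv_mul_cancel₀ hV0, C_1]
    calc monomial α (1 : E) = (C (coeff 0 V)⁻¹ * C (coeff 0 V)) * monomial α (1 : E) := by
          rw [h5, one_mul]
      _ = _ := by ring
  change (monomial α (1 : E) : MvPolynomial σ E) ∈ _
  rw [h4]
  refine Ideal.sub_mem _ (Ideal.mul_mem_left _ _ (Ideal.mem_sup_left h1))
    (Ideal.mul_mem_left _ _ (Ideal.mem_sup_right ?_))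
  rw [pow_succ]
  exact Ideal.mul_mem_mul h3 h2

end Null

end Pool.Agent.TG42
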