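import Pool.Agent.Lib.TG42.J5

/-!
# C42, row C3 (jets): existence of the special forms
-/

set_option autoImplicit false

namespace Pool.Agent.TG42

open MvPolynomial Module

section Exist

variable {σ : Type*} [Fintype σ] [DecidableEq σ] {E : Type*} [Field E] {l : σ}

omit [Fintype σ] [DecidableEq σ] in
theorem exists_eval_ne_zero [Infinite E] {f : MvPolynomial σ E} (hf : f ≠ 0) :
    ∃ c : σ → E, eval c f ≠ 0 := by
  by_contra hcon
  push Not at hcon
  exact hf (MvPolynomial.funext fun c => by rw [hcon c, map_zero])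

omit [Fintype σ] [DecidableEq σ] in
theorem eval_smul_homog {f : MvPolynomial σ E} {d : ℕ} (hf : f.IsHomogeneous d) (a : E)
    (c : σ → E) : eval (fun i => a * c i) f = a ^ d * eval c f := by
  rw [f.as_sum, map_sum, map_sum, Finset.mul_sum]
  refine Finset.sum_congr rfl fun α hα => ?_
  have h1 : α.degree = d := by
    rw [Finsupp.degree_eq_weight_one]
    exact hf (mem_support_iff.1 hα)
  rw [eval_monomial, eval_monomial, mul_left_comm, Finsupp.prod, Finsupp.prod]
  congr 1
  simp only [mul_pow]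
  rw [Finset.prod_mul_distrib, Finset.prod_pow_eq_pow_sum, ← h1, Finsupp.degree_apply]

omit [Fintype σ] [DecidableEq σ] in
theorem exists_eval_one [Infinite E] {f : MvPolynomial σ E} {d : ℕ} (hf : f.IsHomogeneous d)
    (h0 : f ≠ 0) (l : σ) : ∃ c : σ → E, c l = 1 ∧ eval c f ≠ 0 := by
  obtain ⟨c, hc⟩ := exists_eval_ne_zero (mul_ne_zero (X_ne_zero l : (X l : MvPolynomial σ E) ≠ 0) h0)
  rw [map_mul, eval_X] at hc
  have h1 := left_ne_zero_of_mul hc
  refine ⟨fun i => (c l)⁻¹ * c i, inv_mul_cancel₀ h1, ?_⟩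
  rw [eval_smul_homog hf]
  exact mul_ne_zero (pow_ne_zero _ (inv_ne_zero h1)) (right_ne_zero_of_mul hc)

/-- General `θ`: distinct, and the form `f` does not vanish on the lines. -/
theorem exists_theta [Infinite E] {f : MvPolynomial σ E} {d : ℕ} (hf : f.IsHomogeneous d)
    (h0 : f ≠ 0) (l : σ) (s : ℕ) : ∃ θ : {i // i ≠ l} → Fin s → E,
      (∀ i, Function.Injective (θ i)) ∧ ∀ a : {i // i ≠ l} → Fin s, eval (pt l θ a) f ≠ 0 := by
  classical
  let τ : Type _ := {i : σ // i ≠ l}
  let q : ({i : σ // i ≠ l} → Fin s) → MvPolynomial ({i : σ // i ≠ l} × Fin s) E := fun a =>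
    aeval (fun i : σ => if h : i = l then (1 : MvPolynomial ({i : σ // i ≠ l} × Fin s) E)
      else X (⟨i, h⟩, a ⟨i, h⟩)) f
  have hqe : ∀ (a : {i : σ // i ≠ l} → Fin s) (θ : {i : σ // i ≠ l} × Fin s → E),
      eval θ (q a) = eval (pt l (fun i c => θ (i, c)) a) f := by
    intro a θ
    have h1 : (eval θ).comp ((aeval (fun i : σ => if h : i = l then
        (1 : MvPolynomial ({i : σ // i ≠ l} × Fin s) E) else X (⟨i, h⟩, a ⟨i, h⟩)) :
        MvPolynomial σ E →ₐ[E] _) : MvPolynomial σ E →+* _) =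
        eval (pt l (fun i c => θ (i, c)) a) := by
      apply MvPolynomial.ringHom_ext
      · intro r
        simp
      · intro i
        simp only [RingHom.comp_apply, RingHom.coe_coe, aeval_X, eval_X]
        by_cases h : i = l
        · subst h
          rw [dif_pos rfl, pt_l, map_one]
        · rw [dif_neg h, pt_ne a h, eval_X]
    exact RingHom.congr_fun h1 f
  have hq : ∀ a, q a ≠ 0 := by
    intro a hqa
    obtain ⟨c, hc1, hc⟩ := exists_eval_one hf h0 l
    apply hc
    have h1 := hqe a fun x => c x.1.1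
    rw [hqa, map_zero] at h1
    have h2 : pt l (fun (i : {i : σ // i ≠ l}) (_ : Fin s) => c i.1) a = c := by
      funext i
      by_cases h : i = l
      · subst h
        rw [pt_l, hc1]
      · rw [pt_ne a h]
    rw [h2] at h1
    exact h1.symm
  let r : MvPolynomial ({i : σ // i ≠ l} × Fin s) E :=
    ∏ i : {i : σ // i ≠ l}, ∏ c : Fin s × Fin s, if c.1 = c.2 then 1 else X (i, c.1) - X (i, c.2)
  have hr : r ≠ 0 := by
    refine Finset.prod_ne_zero_iff.2 fun i _ => Finset.prod_ne_zero_iff.2 fun c _ => ?_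
    split_ifs with h
    · exact one_ne_zero
    · rw [sub_ne_zero]
      intro h1
      have h2 := X_injective h1
      exact h (congrArg Prod.snd h2)
  have hP : (∏ a, q a) * r ≠ 0 := mul_ne_zero (Finset.prod_ne_zero_iff.2 fun a _ => hq a) hr
  obtain ⟨θ, hθ⟩ := exists_eval_ne_zero hP
  rw [map_mul, map_prod] at hθ
  refine ⟨fun i c => θ (i, c), ?_, ?_⟩
  · intro i c c' hcc
    by_contra hne
    have h1 := right_ne_zero_of_mul hθ
    rw [map_prod] at h1
    have h2 := Finset.prod_ne_zero_iff.1 h1 i (Finset.mem_univ _)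
    rw [map_prod] at h2
    have h3 := Finset.prod_ne_zero_iff.1 h2 (c, c') (Finset.mem_univ _)
    rw [if_neg hne, map_sub, eval_X, eval_X] at h3
    exact h3 (sub_eq_zero.2 hcc)
  · intro a
    have h1 := Finset.prod_ne_zero_iff.1 (left_ne_zero_of_mul hθ) a (Finset.mem_univ _)
    rwa [hqe] at h1

/-- **The special forms.** -/
theorem exists_special [Infinite E] [Nonempty σ] (l : σ) {s b : ℕ} (hs1 : 1 ≤ s)
    (hs : (s : E) ≠ 0) (G : MvPolynomial σ E) (hG : coeff 0 G ≠ 0) (D : MvPolynomial σ E)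
    (hD : ∃ d ≤ b, homogeneousComponent d D ≠ 0) :
    ∃ P : σ → MvPolynomial σ E, (∀ i, (P i).IsHomogeneous s) ∧
      idealOfVars σ E ^ tb (Fintype.card σ) b s ≤ Ideal.span (Set.range (gens l D G P)) ⊔
        idealOfVars σ E ^ (tb (Fintype.card σ) b s + 1) := by
  classical
  have hex : ∃ d, homogeneousComponent d D ≠ 0 := by
    obtain ⟨d, -, hd⟩ := hD
    exact ⟨d, hd⟩
  set d := Nat.find hex with hd
  have hd0 : homogeneousComponent d D ≠ 0 := Nat.find_spec hex
  have hdb : d ≤ b := by
    obtain ⟨d', hd', h1⟩ := hD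
    exact (Nat.find_min' hex h1).trans hd'
  have hlow : ∀ e < d, homogeneousComponent e D = 0 := fun e he => by
    have := Nat.find_min hex he
    push Not at this
    exact this
  obtain ⟨θ, hθ, hθf⟩ := exists_theta (homogeneousComponent_isHomogeneous d D) hd0 l s
  refine ⟨psp l θ, psp_homog, ?_⟩
  set I := Ideal.span (Set.range (gens l D G (psp l θ))) with hI
  have hP : ∀ i, i ≠ l → psp l θ i ∈ I := by
    intro i hi
    refine Ideal.subset_span ⟨i, ?_⟩
    rw [gens, if_neg hi]
  choose v hv hv0 using fun a => lin_gens (l := l) hs1 hs hθ G hG D hlow a (hθf a)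
  have hF : gens l D G (psp l θ) l ∈ I := Ideal.subset_span ⟨l, rfl⟩
  have h1 := pow_mul_mem hs1 hθ hP hF v hv
  set M := d + s + (s - 1) * Fintype.card σ + (s - 1) * Fintype.card {i // i ≠ l} with hM
  set V := Polynomial.aeval (X l : MvPolynomial σ E) (∏ a, v a) with hV
  have hV0 : coeff 0 V ≠ 0 := by
    have h2 : coeff 0 V = (∏ a, v a).coeff 0 := by
      have h3 : (constantCoeff : MvPolynomial σ E →+* E).comp
          ((Polynomial.aeval (X l : MvPolynomial σ E) : Polynomial E →ₐ[E] _) :
            Polynomial E →+* MvPolynomial σ E) = Polynomial.constantCoeff := by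
        apply Polynomial.ringHom_ext
        · intro a
          simp
        · simp
      exact RingHom.congr_fun h3 (∏ a, v a)
    rw [h2, ← Polynomial.constantCoeff_apply, map_prod]
    exact Finset.prod_ne_zero_iff.2 fun a _ => hv0 a
  have h2 := pow_le_of_var (m := s * M) (fun i => var_pow_mul_mem hs1 hP h1 i) hV0
  refine pow_le_of_le ?_ h2
  rw [tb]
  refine Nat.mul_le_mul_left _ (Nat.mul_le_mul_left _ ?_)
  have h3 : Fintype.card {i // i ≠ l} ≤ Fintype.card σ := Fintype.card_subtype_le _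
  have h4 : (s - 1) * Fintype.card σ ≤ Fintype.card σ * s := by
    rw [mul_comm]; exact Nat.mul_le_mul_left _ (by omega)
  have h5 : (s - 1) * Fintype.card {i // i ≠ l} ≤ Fintype.card σ * s :=
    (Nat.mul_le_mul_left _ h3).trans h4
  have h6 : 2 * Fintype.card σ * s = Fintype.card σ * s + Fintype.card σ * s := by ring
  rw [hM, h6]
  omega

end Exist

end Pool.Agent.TG42
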