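import Pool.Agent.Lib.TG42.J6

/-!
# C42, row C3 (jets): one generic group of coefficients
-/

set_option autoImplicit false

namespace Pool.Agent.TG42

open MvPolynomial Module

section Mk

variable {σ : Type*} [Finite σ]

/-- The polynomial of degree `< N` with given coefficients. -/
noncomputable def mkp {R : Type*} [CommRing R] (N : ℕ) (cf : (σ →₀ ℕ) → R) : MvPolynomial σ R :=
  ∑ α ∈ (Finsupp.finite_of_degree_lt (σ := σ) N).toFinset, monomial α (cf α)

theorem coeff_mkp {R : Type*} [CommRing R] (N : ℕ) (cf : (σ →₀ ℕ) → R) (α : σ →₀ ℕ) :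
    coeff α (mkp N cf) = if α.degree < N then cf α else 0 := by
  classical
  rw [mkp, coeff_sum]
  simp only [coeff_monomial]
  rw [Finset.sum_ite_eq']
  simp only [Set.Finite.mem_toFinset, Set.mem_ofPred_eq]

theorem map_mkp {R S : Type*} [CommRing R] [CommRing S] (φ : R →+* S) (N : ℕ)
    (cf : (σ →₀ ℕ) → R) : map φ (mkp N cf) = mkp N fun α => φ (cf α) := by
  rw [mkp, map_sum, mkp]
  exact Finset.sum_congr rfl fun α _ => map_monomial _ _ _

end Mk

section Trunc

variable {σ : Type*} [Fintype σ] [DecidableEq σ] {L : Type*} [Field L]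

omit [Fintype σ] in
theorem pderiv_mem {N : ℕ} {f : MvPolynomial σ L} (hf : f ∈ idealOfVars σ L ^ (N + 1)) (j : σ) :
    pderiv j f ∈ idealOfVars σ L ^ N := by
  have key : ∀ (a m : MvPolynomial σ L), m ∈ idealOfVars σ L ^ (N + 1) →
      pderiv j m ∈ idealOfVars σ L ^ N → pderiv j (a * m) ∈ idealOfVars σ L ^ N := by
    intro a m hm hd
    rw [Derivation.leibniz, smul_eq_mul, smul_eq_mul]
    exact Ideal.add_mem _ (Ideal.mul_mem_left _ _ hd)
      (Ideal.mul_mem_right _ _ (Ideal.pow_le_pow_right (Nat.le_succ N) hm))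
  rw [pow_idealOfVars_eq_span] at hf
  induction hf using Submodule.span_induction with
  | mem x hx =>
    obtain ⟨α, hα, rfl⟩ := hx
    have hα' : α.degree = N + 1 := hα
    rw [pderiv_monomial, one_mul]
    by_cases h0 : ((α j : ℕ) : L) = 0
    · rw [h0, monomial_zero]
      exact Ideal.zero_mem _
    · rw [monomial_mem_pow_idealOfVars_iff _ _ h0]
      have hj : α j ≠ 0 := fun h => h0 (by rw [h, Nat.cast_zero])
      have h1 : α = (α - Finsupp.single j 1) + Finsupp.single j 1 := by
        ext i
        rw [Finsupp.add_apply, Finsupp.tsub_apply]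
        by_cases hi : i = j
        · subst hi
          rw [Finsupp.single_eq_same]; omega
        · rw [Finsupp.single_eq_of_ne hi]; omega
      have h2 : α.degree = (α - Finsupp.single j 1).degree + 1 := by
        conv_lhs => rw [h1]
        rw [map_add, Finsupp.degree_single]
      omega
  | zero => rw [map_zero]; exact Ideal.zero_mem _
  | add x y _ _ hx hy => rw [map_add]; exact Ideal.add_mem _ hx hy
  | smul a x hx' hx =>
    rw [smul_eq_mul]
    refine key a x ?_ hx
    rw [pow_idealOfVars_eq_span]
    exact hx'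

/-- The generators modulo `𝔪 ^ N` depend only on `h` modulo `𝔪 ^ (N + 1)`. -/
theorem gens_sub_mem (l : σ) (D G : MvPolynomial σ L) {h h' : σ → MvPolynomial σ L} {N : ℕ}
    (hh : ∀ i, h i - h' i ∈ idealOfVars σ L ^ (N + 1)) (i : σ) :
    gens l D G h i - gens l D G h' i ∈ idealOfVars σ L ^ N := by
  have hle : idealOfVars σ L ^ (N + 1) ≤ idealOfVars σ L ^ N :=
    Ideal.pow_le_pow_right (Nat.le_succ N)
  let q := Ideal.Quotient.mk (idealOfVars σ L ^ N)
  have h0 : ∀ i, q (h i) = q (h' i) := fun i =>
    (Ideal.Quotient.mk_eq_mk_iff_sub_mem _ _).2 (hle (hh i))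
  have h1 : ∀ i j, q (pderiv j (h i)) = q (pderiv j (h' i)) := fun i j => by
    rw [Ideal.Quotient.mk_eq_mk_iff_sub_mem, ← map_sub]
    exact pderiv_mem (hh i) j
  unfold gens
  split_ifs with hi
  · rw [← Ideal.Quotient.mk_eq_mk_iff_sub_mem]
    change q (D * h l * jac G h) = q (D * h' l * jac G h')
    rw [map_mul, map_mul, map_mul, map_mul, h0]
    congr 1
    rw [jac, jac, RingHom.map_det, RingHom.map_det]
    congr 1
    ext1 i j
    simp only [jmat, RingHom.mapMatrix_apply, Matrix.map_apply, Matrix.of_apply, map_sub, map_mul,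
      h0, h1]
  · exact hle (hh i)

end Trunc

section Group

universe u

variable {σ : Type} [Fintype σ] [DecidableEq σ] [Nonempty σ] {E k : Type u} [Field E] [Field k]
  [Algebra E k]

/-- **One generic group of coefficients.** -/
theorem jets_group [Infinite E] (l : σ) {s s' b : ℕ} (hs1 : 1 ≤ s) (hs : (s : E) ≠ 0)
    (G : MvPolynomial σ E) (hG : coeff 0 G ≠ 0) (D : MvPolynomial σ E)
    (hD : ∃ d ≤ b, homogeneousComponent d D ≠ 0) (h : σ → MvPolynomial σ k)
    (hlow : ∀ i (α : σ →₀ ℕ), α.degree < s → ∃ e : E, algebraMap E k e = coeff α (h i))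
    (hgen : AlgebraicIndependent E
      fun x : σ × {α : σ →₀ ℕ // s ≤ α.degree ∧ α.degree < s'} => coeff x.2.1 (h x.1))
    (hs' : bd (Fintype.card σ) b s + 2 ≤ s') :
    idealOfVars σ k ^ bd (Fintype.card σ) b s ≤
      Ideal.span (Set.range (gens l (map (algebraMap E k) D) (map (algebraMap E k) G) h)) ⊔
        idealOfVars σ k ^ (bd (Fintype.card σ) b s + 1) := by
  classical
  set B := bd (Fintype.card σ) b s with hB
  set T := tb (Fintype.card σ) b s with hT
  have hTs : s ≤ T := by
    have h1 : 0 < Fintype.card σ := Fintype.card_pos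
    calc s ≤ s * (b + s + 2 * Fintype.card σ * s) := Nat.le_mul_of_pos_right s (by omega)
      _ ≤ T := Nat.le_mul_of_pos_left _ h1
  have hTB : T ≤ B := Nat.le_self_pow Fintype.card_ne_zero T
  have hss : s < s' := by omega
  obtain ⟨P, hPh, hP⟩ := exists_special l hs1 hs G hG D hD
  choose! e he using hlow
  obtain ⟨_⟩ := nonempty_fintype (Exps σ B)
  -- step 1
  let cf1 : σ → (σ →₀ ℕ) → Polynomial E := fun i α =>
    if α.degree < s then Polynomial.C (e i α) * Polynomial.X else Polynomial.C (coeff α (P i))
  let g1 : σ → MvPolynomial σ (Polynomial E) :=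
    gens l (map Polynomial.C D) (map Polynomial.C G) fun i => mkp s' (cf1 i)
  have hg1 : ∀ (φ : Polynomial E →+* E) (hφ : ∀ a, φ (Polynomial.C a) = a) (i : σ),
      map φ (g1 i) = gens l D G (fun i => mkp s' fun α => φ (cf1 i α)) i := by
    intro φ hφ i
    have h1 : ∀ Q : MvPolynomial σ E, map φ (map Polynomial.C Q) = Q := by
      intro Q
      rw [MvPolynomial.map_map]
      have h2 : φ.comp Polynomial.C = RingHom.id E := RingHom.ext hφ
      rw [h2, MvPolynomial.map_id]
    rw [map_gens, h1, h1]
    simp only [map_mkp]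
  have h10 : (fun i => mkp s' fun α => Polynomial.evalRingHom 0 (cf1 i α)) = P := by
    funext i
    ext α
    rw [coeff_mkp]
    have h1 : α.degree ≠ s → coeff α (P i) = 0 := fun h2 => (hPh i).coeff_eq_zero h2
    simp only [cf1, Polynomial.coe_evalRingHom]
    split_ifs with h2 h3
    · rw [Polynomial.eval_mul, Polynomial.eval_X, mul_zero, h1 h3.ne]
    · rw [Polynomial.eval_C]
    · rw [h1 (by omega)]
  have hsp1 : Submodule.span E (Set.range fun r => fun j =>
      Polynomial.evalRingHom 0 (rows B T g1 r j)) = ⊤ := by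
    have h1 : (fun r => fun j => Polynomial.evalRingHom (0 : E) (rows B T g1 r j)) =
        rows B T (gens l D G P) := by
      funext r j
      rw [rows_map]
      have h2 : (fun i => map (Polynomial.evalRingHom (0 : E)) (g1 i)) = gens l D G P := by
        funext i
        rw [hg1 _ (fun a => by simp), h10]
      rw [h2]
    rw [h1]
    exact rows_span B T _ hP
  obtain ⟨f1, hf1⟩ := exists_det (Polynomial.evalRingHom (0 : E)) (rows B T g1) hsp1
  obtain ⟨ε, hε0, hε⟩ : ∃ ε : E, ε ≠ 0 ∧ Polynomial.evalRingHom ε
      (Matrix.of fun i j => rows B T g1 (f1 i) j).det ≠ 0 := by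
    set δ := (Matrix.of fun i j => rows B T g1 (f1 i) j).det with hδ
    have hδ0 : δ ≠ 0 := fun h0 => hf1 (by rw [h0, map_zero])
    have h1 : (Polynomial.X : Polynomial E) * δ ≠ 0 := mul_ne_zero Polynomial.X_ne_zero hδ0
    obtain ⟨ε, h2⟩ : ∃ ε : E, Polynomial.eval ε ((Polynomial.X : Polynomial E) * δ) ≠ 0 := by
      by_contra hcon
      push Not at hcon
      exact h1 (Polynomial.funext fun r => by rw [hcon r, Polynomial.eval_zero])
    rw [Polynomial.eval_mul, Polynomial.eval_X] at h2
    exact ⟨ε, left_ne_zero_of_mul h2, right_ne_zero_of_mul h2⟩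
  have hsp2 := span_of_map_det _ _ f1 hε
  let h2' : σ → MvPolynomial σ E := fun i => mkp s' fun α => Polynomial.evalRingHom ε (cf1 i α)
  have hsp3 : Submodule.span E (Set.range (rows B T (gens l D G h2'))) = ⊤ := by
    have h1 : (fun r => fun j => Polynomial.evalRingHom ε (rows B T g1 r j)) =
        rows B T (gens l D G h2') := by
      funext r j
      rw [rows_map]
      have h2 : (fun i => map (Polynomial.evalRingHom ε) (g1 i)) = gens l D G h2' := by
        funext i
        rw [hg1 _ (fun a => by simp)]
      rw [h2]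
    rw [← h1]
    exact hsp2
  have hsp4 : Submodule.span E
      (Set.range (rows B T (gens l D G fun i => C ε⁻¹ * h2' i))) = ⊤ := by
    rw [rows_span_iff, span_gens_smul (inv_ne_zero hε0)]
    rwa [rows_span_iff] at hsp3
  -- step 2
  let U : Type := σ × {α : σ →₀ ℕ // s ≤ α.degree ∧ α.degree < s'}
  let cf2 : σ → (σ →₀ ℕ) → MvPolynomial U E := fun i α =>
    if hα : s ≤ α.degree ∧ α.degree < s' then X (i, ⟨α, hα⟩) else C (e i α)
  let g2 : σ → MvPolynomial σ (MvPolynomial U E) :=
    gens l (map C D) (map C G) fun i => mkp s' (cf2 i)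
  let φ2 : MvPolynomial U E →+* E := eval fun x => ε⁻¹ * coeff x.2.1 (P x.1)
  have hφ2 : (fun i => mkp s' fun α => φ2 (cf2 i α)) = fun i => C ε⁻¹ * h2' i := by
    funext i
    ext α
    rw [coeff_mkp, coeff_C_mul, coeff_mkp]
    split_ifs with h1
    · simp only [cf1, cf2, Polynomial.coe_evalRingHom, φ2]
      by_cases h3 : α.degree < s
      · rw [dif_neg (by omega), if_pos h3, eval_C, Polynomial.eval_mul, Polynomial.eval_C,
          Polynomial.eval_X]
        field_simp
      · rw [dif_pos ⟨not_lt.1 h3, h1⟩, if_neg h3, eval_X, Polynomial.eval_C]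
    · rw [mul_zero]
  have hsp5 : Submodule.span E (Set.range fun r => fun j => φ2 (rows B T g2 r j)) = ⊤ := by
    have h1 : (fun r => fun j => φ2 (rows B T g2 r j)) =
        rows B T (gens l D G fun i => C ε⁻¹ * h2' i) := by
      funext r j
      rw [rows_map]
      have h2 : (fun i => map φ2 (g2 i)) = gens l D G fun i => C ε⁻¹ * h2' i := by
        funext i
        have h3 : ∀ Q : MvPolynomial σ E, map φ2 (map C Q) = Q := by
          intro Q
          rw [MvPolynomial.map_map]
          have h4 : φ2.comp C = RingHom.id E := RingHom.ext fun a => eval_C a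
          rw [h4, MvPolynomial.map_id]
        rw [map_gens, h3, h3]
        simp only [map_mkp]
        rw [hφ2]
      rw [h2]
    rw [h1]
    exact hsp4
  obtain ⟨f2, hf2⟩ := exists_det φ2 (rows B T g2) hsp5
  let ψ : MvPolynomial U E →+* k := (aeval fun x : U => coeff x.2.1 (h x.1)).toRingHom
  have hψ : Function.Injective ψ := hgen
  have hδ : ψ (Matrix.of fun i j => rows B T g2 (f2 i) j).det ≠ 0 := by
    intro h0
    have h1 := hψ (h0.trans (map_zero ψ).symm)
    exact hf2 (by rw [h1, map_zero])
  have hsp6 := span_of_map_det ψ _ f2 hδ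
  let ht : σ → MvPolynomial σ k := fun i => mkp s' fun α => ψ (cf2 i α)
  have hsp7 : Submodule.span k (Set.range (rows B T
      (gens l (map (algebraMap E k) D) (map (algebraMap E k) G) ht))) = ⊤ := by
    have h1 : (fun r => fun j => ψ (rows B T g2 r j)) =
        rows B T (gens l (map (algebraMap E k) D) (map (algebraMap E k) G) ht) := by
      funext r j
      rw [rows_map]
      have h2 : (fun i => map ψ (g2 i)) =
          gens l (map (algebraMap E k) D) (map (algebraMap E k) G) ht := by
        funext i
        have h3 : ∀ Q : MvPolynomial σ E, map ψ (map C Q) = map (algebraMap E k) Q := by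
          intro Q
          rw [MvPolynomial.map_map]
          have h4 : ψ.comp C = algebraMap E k := RingHom.ext fun a => by
            change aeval _ (C a) = _
            rw [aeval_C]
          rw [h4]
        rw [map_gens, h3, h3]
        simp only [map_mkp]
        rfl
      rw [h2]
    rw [← h1]
    exact hsp6
  rw [rows_span_iff] at hsp7
  -- truncation
  have htr : ∀ i, h i - ht i ∈ idealOfVars σ k ^ (B + 1 + 1) := by
    intro i
    rw [mem_pow_idealOfVars_iff']
    intro α hα
    rw [coeff_sub, coeff_mkp, if_pos (by omega), sub_eq_zero]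
    by_cases h1 : s ≤ α.degree ∧ α.degree < s'
    · simp only [cf2, dif_pos h1]
      change _ = aeval _ (X _)
      rw [aeval_X]
    · simp only [cf2, dif_neg h1]
      change _ = aeval _ (C _)
      rw [aeval_C, he i α (by omega)]
  have hcong := gens_sub_mem l (map (algebraMap E k) D) (map (algebraMap E k) G) htr
  have hle : Ideal.span (Set.range (gens l (map (algebraMap E k) D) (map (algebraMap E k) G) ht)) ⊔
      idealOfVars σ k ^ (B + 1) ≤
      Ideal.span (Set.range (gens l (map (algebraMap E k) D) (map (algebraMap E k) G) h)) ⊔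
      idealOfVars σ k ^ (B + 1) := by
    refine sup_le ?_ le_sup_right
    rw [Ideal.span_le]
    rintro _ ⟨i, rfl⟩
    have h1 := hcong i
    have h2 : gens l (map (algebraMap E k) D) (map (algebraMap E k) G) ht i =
        gens l (map (algebraMap E k) D) (map (algebraMap E k) G) h i -
        (gens l (map (algebraMap E k) D) (map (algebraMap E k) G) h i -
          gens l (map (algebraMap E k) D) (map (algebraMap E k) G) ht i) := by ring
    rw [h2]
    exact Ideal.sub_mem _ (Ideal.mem_sup_left (Ideal.subset_span ⟨i, rfl⟩))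
      (Ideal.mem_sup_right h1)
  obtain ⟨i, hi, hi'⟩ := exists_pow_le (L := k)
    (Ideal.span (Set.range (gens l (map (algebraMap E k) D) (map (algebraMap E k) G) h)))
    (idealOfVars σ k) (B := B) (boxMon (σ := σ) k T) (by
      rw [Fintype.card_fun, Fintype.card_fin]
      exact le_rfl) (fun f => by
        obtain ⟨b, hb, hfb⟩ := hsp7 f
        exact ⟨b, hb, hle hfb⟩)
  exact pow_le_of_le hi hi'

end Group

end Pool.Agent.TG42
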