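import Pool.Agent.Lib.TG42.J7
import Pool.Agent.Lib.TGJ.Rank_h91

/-!
# C42, row C3 (jets): translations, the choice of the group
-/

set_option autoImplicit false

open scoped Classical

namespace Pool.Agent.TG42

open MvPolynomial Module
open Pool.Agent.TGJ (frk frk_mono frk_le_card frk_union_le_add_card algebraicIndependent_adjoin_iff
  algebraicIndependent_iff_frk frk_le_of_algebraic)

universe u

section Trans

variable {σ R S : Type*} [CommRing R] [CommRing S]

/-- The translation `f ↦ f(X + η)`. -/
noncomputable def tra (η : σ → R) : MvPolynomial σ R →ₐ[R] MvPolynomial σ R :=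
  aeval fun i => X i + C (η i)

theorem tra_X (η : σ → R) (i : σ) : tra η (X i) = X i + C (η i) := by rw [tra, aeval_X]

theorem tra_C (η : σ → R) (a : R) : tra η (C a) = C a := by
  rw [tra, algHom_C]
  rfl

theorem tra_tra (η ζ : σ → R) (f : MvPolynomial σ R) : tra η (tra ζ f) = tra (η + ζ) f := by
  have h : (tra η).comp (tra ζ) = tra (η + ζ) := by
    apply algHom_ext
    intro i
    rw [AlgHom.comp_apply, tra_X, map_add, tra_X, tra_C, tra_X, Pi.add_apply, C_add, add_assoc]
  exact DFunLike.congr_fun h f

theorem tra_zero (f : MvPolynomial σ R) : tra (0 : σ → R) f = f := by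
  have h : tra (0 : σ → R) = AlgHom.id R _ := by
    apply algHom_ext
    intro i
    rw [tra_X, Pi.zero_apply, C_0, add_zero, AlgHom.id_apply]
  rw [h, AlgHom.id_apply]

theorem tra_neg_tra (η : σ → R) (f : MvPolynomial σ R) : tra (-η) (tra η f) = f := by
  rw [tra_tra, neg_add_cancel, tra_zero]

theorem tra_tra_neg (η : σ → R) (f : MvPolynomial σ R) : tra η (tra (-η) f) = f := by
  rw [tra_tra, add_neg_cancel, tra_zero]

theorem map_tra (φ : R →+* S) (η : σ → R) (f : MvPolynomial σ R) :
    map φ (tra η f) = tra (fun i => φ (η i)) (map φ f) := by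
  have h : (map φ).comp (tra η : MvPolynomial σ R →+* MvPolynomial σ R) =
      ((tra fun i => φ (η i) : MvPolynomial σ S →ₐ[S] _) :
        MvPolynomial σ S →+* MvPolynomial σ S).comp (map φ) := by
    apply MvPolynomial.ringHom_ext
    · intro r
      simp only [RingHom.comp_apply, RingHom.coe_coe, tra_C, map_C]
    · intro i
      simp only [RingHom.comp_apply, RingHom.coe_coe, tra_X, map_X, map_add, map_C]
  exact RingHom.congr_fun h f

theorem coeff_zero_tra (η : σ → R) (f : MvPolynomial σ R) : coeff 0 (tra η f) = eval η f := by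
  have h : (constantCoeff : MvPolynomial σ R →+* R).comp
      (tra η : MvPolynomial σ R →+* MvPolynomial σ R) = eval η := by
    apply MvPolynomial.ringHom_ext
    · intro r
      simp only [RingHom.comp_apply, RingHom.coe_coe, tra_C, constantCoeff_C, eval_C]
    · intro i
      simp only [RingHom.comp_apply, RingHom.coe_coe, tra_X, map_add, constantCoeff_C,
        constantCoeff_X, zero_add, eval_X]
  exact RingHom.congr_fun h f

theorem pderiv_tra (η : σ → R) (j : σ) (f : MvPolynomial σ R) :
    pderiv j (tra η f) = tra η (pderiv j f) := by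
  induction f using MvPolynomial.induction_on with
  | C a => rw [tra_C, pderiv_C, map_zero]
  | add p q hp hq => rw [map_add, map_add, hp, hq, map_add, map_add]
  | mul_X p i hp =>
    rw [map_mul, tra_X, Derivation.leibniz, hp, Derivation.leibniz, map_add, map_add, pderiv_C,
      add_zero, smul_eq_mul, smul_eq_mul, smul_eq_mul, smul_eq_mul, map_mul, map_mul, tra_X]
    congr 2
    rw [pderiv_X]
    by_cases h : i = j
    · subst h
      simp
    · have h1 : (Pi.single j 1 : σ → MvPolynomial σ R) i = 0 := Pi.single_eq_of_ne h _
      rw [h1, map_zero]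

theorem totalDegree_tra_le (η : σ → R) (f : MvPolynomial σ R) :
    (tra η f).totalDegree ≤ f.totalDegree := by
  rw [tra, aeval_def, eval₂_eq]
  refine totalDegree_finsetSum_le fun d hd => ?_
  refine (totalDegree_mul _ _).trans ?_
  have h1 : (algebraMap R (MvPolynomial σ R) (f.coeff d)).totalDegree = 0 := by
    rw [algebraMap_eq, totalDegree_C]
  rw [h1, zero_add]
  refine (totalDegree_finsetProd _ _).trans ?_
  have h2 : ∀ i ∈ d.support, ((X i + C (η i) : MvPolynomial σ R) ^ d i).totalDegree ≤ d i := by
    intro i _
    refine (totalDegree_pow _ _).trans ?_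
    have : (X i + C (η i) : MvPolynomial σ R).totalDegree ≤ 1 := by
      refine (totalDegree_add _ _).trans ?_
      rw [totalDegree_C]
      refine max_le ?_ (Nat.zero_le _)
      rcases subsingleton_or_nontrivial R with h | h
      · have : (X i : MvPolynomial σ R) = 0 := Subsingleton.elim _ _
        rw [this, totalDegree_zero]
        exact Nat.zero_le _
      · rw [totalDegree_X]
    calc d i * _ ≤ d i * 1 := Nat.mul_le_mul_left _ this
      _ = d i := mul_one _
  refine (Finset.sum_le_sum h2).trans ?_
  exact le_totalDegree hd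

end Trans

section Sub

variable {σ : Type*} {F k : Type u} [Field F] [Field k] [Algebra F k]

theorem exists_map {K : IntermediateField F k} {f : MvPolynomial σ k}
    (h : ∀ α, coeff α f ∈ K) : ∃ f' : MvPolynomial σ K, map (algebraMap K k) f' = f := by
  refine ⟨∑ α ∈ f.support, monomial α ⟨coeff α f, h α⟩, ?_⟩
  rw [map_sum]
  conv_rhs => rw [f.as_sum]
  exact Finset.sum_congr rfl fun α _ => map_monomial _ _ _

theorem coeff_tra_mem {K : IntermediateField F k} {η : σ → k} (hη : ∀ i, η i ∈ K)
    {f : MvPolynomial σ k} (h : ∀ α, coeff α f ∈ K) (α : σ →₀ ℕ) : coeff α (tra η f) ∈ K := by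
  obtain ⟨f', rfl⟩ := exists_map h
  have h1 : tra η (map (algebraMap K k) f') =
      map (algebraMap K k) (tra (fun i => (⟨η i, hη i⟩ : K)) f') := by
    rw [map_tra]
    rfl
  rw [h1, coeff_map]
  exact (coeff α (tra (fun i => (⟨η i, hη i⟩ : K)) f')).2

end Sub

section Choice

variable {F k : Type u} [Field F] [Field k] [Algebra F k]

/-- The set of the elements of the groups before `j`. -/
noncomputable def upTo (S₀ : Finset k) {grp : ℕ → Type} [∀ j, Fintype (grp j)]
    (c : ∀ j, grp j → k) (j : ℕ) : Finset k :=
  S₀ ∪ (Finset.range j).biUnion fun i => Finset.univ.image (c i)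

/-- If the groups have together almost full rank then one of them is independent over the
previous ones. -/
theorem exists_group (S₀ : Finset k) {grp : ℕ → Type} [∀ j, Fintype (grp j)]
    (c : ∀ j, grp j → k) (m : ℕ)
    (h : frk F S₀ + ∑ j ∈ Finset.range m, Fintype.card (grp j) < frk F (upTo S₀ c m) + m) :
    ∃ j < m, AlgebraicIndependent (IntermediateField.adjoin F (upTo S₀ c j : Set k)) (c j) := by
  by_contra hcon
  push Not at hcon
  have key : ∀ j ≤ m, frk F (upTo S₀ c j) + j ≤
      frk F S₀ + ∑ i ∈ Finset.range j, Fintype.card (grp i) := by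
    intro j
    induction j with
    | zero => intro _; simp [upTo]
    | succ j ih =>
      intro hj
      have h1 := ih (by omega)
      have h2 : upTo S₀ c (j + 1) = upTo S₀ c j ∪ Finset.univ.image (c j) := by
        rw [upTo, upTo, Finset.range_add_one, Finset.biUnion_insert]
        ext x
        simp only [Finset.mem_union]
        tauto
      have h3 := frk_union_le_add_card F (upTo S₀ c j) (Finset.univ.image (c j))
      have h4 : (Finset.univ.image (c j)).card ≤ Fintype.card (grp j) := Finset.card_image_le
      have h5 : frk F (upTo S₀ c j ∪ Finset.univ.image (c j)) ≠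
          frk F (upTo S₀ c j) + Fintype.card (grp j) := fun h6 =>
        hcon j (by omega) ((algebraicIndependent_adjoin_iff F _ _).2 h6)
      rw [h2, Finset.sum_range_succ]
      omega
  have := key m le_rfl
  omega

end Choice

end Pool.Agent.TG42
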