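import Pool.Agent.Lib.TG42.J8

/-!
# C42, row C3 (jets): the counting of coefficients
-/

set_option autoImplicit false

open scoped Classical

namespace Pool.Agent.TG42

open MvPolynomial Module
open Pool.Agent.TGJ (frk frk_mono frk_le_card frk_union_le_add_card algebraicIndependent_adjoin_iff
  algebraicIndependent_iff_frk frk_le_of_algebraic)

universe u

section Levels

theorem tb_pos {n b s : ℕ} (hn : 0 < n) (hs : 1 ≤ s) : s ≤ tb n b s := by
  calc s ≤ s * (b + s + 2 * n * s) := Nat.le_mul_of_pos_right s (by omega)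
    _ ≤ tb n b s := Nat.le_mul_of_pos_left _ hn

theorem le_bd {n b s : ℕ} (hn : 0 < n) (hs : 1 ≤ s) : s ≤ bd n b s :=
  (tb_pos hn hs).trans (Nat.le_self_pow hn.ne' _)

theorem one_le_lev (n b j : ℕ) : 1 ≤ lev n b j := by
  cases j with
  | zero => exact le_rfl
  | succ j => rw [lev]; omega

theorem lev_lt {n b : ℕ} (hn : 0 < n) (j : ℕ) : lev n b j < lev n b (j + 1) := by
  have h := le_bd (b := b) hn (one_le_lev n b j)
  change lev n b j < bd n b (lev n b j) + 2
  omega

theorem lev_mono {n b : ℕ} (hn : 0 < n) : StrictMono (lev n b) := strictMono_nat_of_lt_succ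
  fun j => lev_lt hn j

theorem lev_succ (n b : ℕ) : lev n b (n + 1) = dgT n b + 1 := by
  have h := one_le_lev n b (n + 1)
  rw [dgT]
  omega

theorem bd_mono {n b s s' : ℕ} (h : s ≤ s') : bd n b s ≤ bd n b s' := by
  refine Nat.pow_le_pow_left ?_ _
  refine Nat.mul_le_mul_left _ (Nat.mul_le_mul h ?_)
  have := Nat.mul_le_mul_left (2 * n) h
  omega

/-- Every degree in `[1, lev (m))` is in one of the intervals. -/
theorem exists_level {n b : ℕ} {d m : ℕ} (h1 : 1 ≤ d) (h2 : d < lev n b m) :
    ∃ j < m, lev n b j ≤ d ∧ d < lev n b (j + 1) := by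
  induction m with
  | zero => exact absurd h2 (by rw [lev]; omega)
  | succ m ih =>
    by_cases h : d < lev n b m
    · obtain ⟨j, hj, h3⟩ := ih h
      exact ⟨j, by omega, h3⟩
    · exact ⟨m, Nat.lt_succ_self m, not_lt.1 h, h2⟩

end Levels

section Main

variable {n b : ℕ} {F k : Type u} [Field F] [Field k] [Algebra F k]
  {g : Fin (n + 1) → MvPolynomial (Fin n) k}

noncomputable instance : Fintype (Exps (Fin n) (dgT n b)) := Fintype.ofFinite _

/-- The number of coefficients. -/
noncomputable def nc (n b : ℕ) : ℕ := Fintype.card (Exps (Fin n) (dgT n b))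

theorem nc_pos (n b : ℕ) : 0 < nc n b :=
  Fintype.card_pos_iff.2 ⟨⟨0, by simp⟩⟩

/-- If all coefficients of the translated polynomials are algebraic over `F(s)` and `η ⊆ F(s)`,
then the rank of `s` is full. -/
theorem GenT.rank_le (hg : GenT b F g) (η : Fin n → k) (s : Finset k)
    (hη : ∀ i, η i ∈ IntermediateField.adjoin F (s : Set k))
    (hG : ∀ j α, coeff α (tra η (g j)) ∈ IntermediateField.adjoin F (s : Set k)) :
    (n + 1) * nc n b ≤ frk F s := by
  have h1 := (algebraicIndependent_iff_frk F _).1 hg.ind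
  rw [Fintype.card_prod, Fintype.card_fin] at h1
  rw [nc, ← h1]
  refine frk_le_of_algebraic F fun a ha => ?_
  obtain ⟨x, -, rfl⟩ := Finset.mem_image.1 ha
  have h2 : coeff x.2.1 (g x.1) ∈ IntermediateField.adjoin F (s : Set k) := by
    rw [← tra_neg_tra η (g x.1)]
    exact coeff_tra_mem (fun i => neg_mem (hη i)) (hG x.1) x.2.1
  exact isAlgebraic_algebraMap (⟨_, h2⟩ : IntermediateField.adjoin F (s : Set k))

theorem GenT.coeff_zero (hg : GenT b F g) (η : Fin n → k) (j : Fin (n + 1)) {α : Fin n →₀ ℕ}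
    (hα : dgT n b < α.degree) : coeff α (tra η (g j)) = 0 := by
  by_contra h
  have h1 := le_totalDegree (mem_support_iff.2 h)
  have h2 := (totalDegree_tra_le η (g j)).trans (hg.deg j)
  have h3 : α.degree = α.sum fun _ e => e := rfl
  omega

omit [Field k] in
theorem card_image_eta_le (η : Fin n → k) : (Finset.univ.image η).card ≤ n := by
  refine Finset.card_image_le.trans ?_
  rw [Finset.card_univ, Fintype.card_fin]

/-- The nonconstant exponents. -/
theorem card_ne_zero_exps (n b : ℕ) :
    Fintype.card {α : Exps (Fin n) (dgT n b) // α.1 ≠ 0} + 1 ≤ nc n b := by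
  have h1 : Fintype.card {α : Exps (Fin n) (dgT n b) // α.1 ≠ 0} <
      Fintype.card (Exps (Fin n) (dgT n b)) :=
    Fintype.card_subtype_lt (x := ⟨0, by simp⟩) (by simp)
  exact h1

/-- `g` has no common zero. -/
theorem exists_ne (hg : GenT b F g) (η : Fin n → k) : ∃ i, eval η (g i) ≠ 0 := by
  by_contra hcon
  push Not at hcon
  let c : Fin (n + 1) × {α : Exps (Fin n) (dgT n b) // α.1 ≠ 0} → k := fun x =>
    coeff x.2.1.1 (tra η (g x.1))
  let s : Finset k := Finset.univ.image η ∪ Finset.univ.image c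
  have hsub : ∀ x ∈ s, x ∈ IntermediateField.adjoin F (s : Set k) := fun x hx =>
    IntermediateField.subset_adjoin F _ (Finset.mem_coe.2 hx)
  have h1 := hg.rank_le η s
    (fun i => hsub _ (Finset.mem_union_left _ (Finset.mem_image_of_mem _ (Finset.mem_univ i))))
    (by
      intro j α
      by_cases h0 : α = 0
      · rw [h0, coeff_zero_tra, hcon j]
        exact zero_mem _
      by_cases h2 : α.degree ≤ dgT n b
      · have h3 : c (j, ⟨⟨α, h2⟩, h0⟩) ∈ Finset.univ.image c :=
          Finset.mem_image_of_mem c (Finset.mem_univ _)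
        exact hsub _ (Finset.mem_union_right _ h3)
      · rw [hg.coeff_zero η j (not_le.1 h2)]
        exact zero_mem _)
  have h2 : frk F s ≤ s.card := frk_le_card F s
  have h3 : s.card ≤ n + (n + 1) * Fintype.card {α : Exps (Fin n) (dgT n b) // α.1 ≠ 0} := by
    refine (Finset.card_union_le _ _).trans (add_le_add (card_image_eta_le η) ?_)
    refine Finset.card_image_le.trans ?_
    rw [Finset.card_univ, Fintype.card_prod, Fintype.card_fin]
  have h4 := card_ne_zero_exps n b
  have h5 : (n + 1) * (Fintype.card {α : Exps (Fin n) (dgT n b) // α.1 ≠ 0} + 1) ≤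
      (n + 1) * nc n b := Nat.mul_le_mul_left _ h4
  rw [mul_add, mul_one] at h5
  omega

/-- The group `j` of coefficients. -/
abbrev Grp (n b j : ℕ) : Type :=
  Fin n × {α : Fin n →₀ ℕ // lev n b j ≤ α.degree ∧ α.degree < lev n b (j + 1)}

instance (n b j : ℕ) : Finite {α : Fin n →₀ ℕ //
    lev n b j ≤ α.degree ∧ α.degree < lev n b (j + 1)} :=
  ((Finsupp.finite_of_degree_lt (σ := Fin n) (lev n b (j + 1))).subset fun _ h => h.2).to_subtype

noncomputable instance (n b j : ℕ) : Fintype (Grp n b j) := Fintype.ofFinite _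

theorem sum_card_grp (hn : 0 < n) :
    ∑ j ∈ Finset.range (n + 1), Fintype.card (Grp n b j) + n ≤ n * nc n b := by
  rw [Finset.sum_range, ← Fintype.card_sigma]
  let f : (Σ j : Fin (n + 1), Grp n b j) →
      Fin n × {α : Exps (Fin n) (dgT n b) // α.1 ≠ 0} := fun x =>
    (x.2.1, ⟨⟨x.2.2.1, by
      have h1 := x.2.2.2.2
      have h2 : lev n b ((x.1 : ℕ) + 1) ≤ lev n b (n + 1) := (lev_mono hn).monotone (by omega)
      rw [lev_succ] at h2
      omega⟩, fun h0 => by
      have h1 := x.2.2.2.1
      have h2 := one_le_lev n b x.1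
      have h3 : (x.2.2.1 : Fin n →₀ ℕ) = 0 := h0
      rw [h3, map_zero] at h1
      omega⟩)
  have hf : Function.Injective f := by
    rintro ⟨j, i, α, hα⟩ ⟨j', i', α', hα'⟩ h
    simp only [f, Prod.mk.injEq, Subtype.mk.injEq] at h
    obtain ⟨rfl, rfl⟩ := h
    have hjj : j = j' := by
      apply Fin.ext
      by_contra hne
      rcases lt_or_gt_of_ne hne with h1 | h1
      · have h2 := (lev_mono (b := b) hn).monotone (show (j : ℕ) + 1 ≤ j' by omega)
        omega
      · have h2 := (lev_mono (b := b) hn).monotone (show (j' : ℕ) + 1 ≤ j by omega)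
        omega
    subst hjj
    rfl
  have h1 := Fintype.card_le_of_injective f hf
  rw [Fintype.card_prod, Fintype.card_fin] at h1
  have h2 := card_ne_zero_exps n b
  have h3 : n * (Fintype.card {α : Exps (Fin n) (dgT n b) // α.1 ≠ 0} + 1) ≤ n * nc n b :=
    Nat.mul_le_mul_left _ h2
  rw [mul_add, mul_one] at h3
  omega

end Main

end Pool.Agent.TG42
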